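import Pool.Agent.LibKE16.Base

/-!
# MP_3c6ab9 (Kurihara), local block, row G1: restriction of a local automorphism

PLAN
`Qb` is algebraic over `ℚ`, normal. For `x : Qb` the element `τ (ι x)` is a root of the minimal
polynomial of `x` over `ℚ`, which splits in `Qb`, so `τ (ι x) ∈ range ι` (`AlgHom.fieldRange`,
`Normal`, e.g. `AlgHom.restrictNormal`: view `Cq q` as an algebra over `Qb` via `ι` and restrict
`τ` (as a `ℚ`-automorphism) to the normal subextension: `AlgEquiv.restrictNormal` with `letI :=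
ι.toRingHom.toAlgebra` and `IsScalarTower ℚ Qb (Cq q)`, `AlgEquiv.restrictNormal_commutes`). For
`emb_conj`: same with two embeddings (`AlgHom.restrictNormal'`, `IsAlgClosed.lift`, or: `ι'` has
the same image as `ι`, namely the algebraic elements).
-/

open WeierstrassCurve

set_option linter.unusedVariables false

namespace KE16

private theorem G1_aux {C : Type} [Field C] [Algebra ℚ C] (φ ψ : Qb →ₐ[ℚ] C) :
    ∃ g : GQ, ∀ x : Qb, ψ x = φ (g x) := by
  let _ : Algebra Qb C := φ.toRingHom.toAlgebra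
  have e : (DivisionRing.toRatAlgebra : Algebra ℚ Qb) = AlgebraicClosure.instAlgebra ℚ :=
    Subsingleton.elim _ _
  have hn : Normal ℚ Qb := by
    rw [e]
    exact @IsAlgClosure.normal ℚ Qb _ _ (AlgebraicClosure.instAlgebra ℚ) _
  have hst : IsScalarTower ℚ Qb C :=
    IsScalarTower.of_algebraMap_eq (fun x => (φ.commutes x).symm)
  exact ⟨ψ.restrictNormal' Qb, fun x => (AlgHom.restrictNormal_commutes ψ Qb x).symm⟩

/-- restriction of a local automorphism -/
theorem L_restr {q : ℕ} [Fact q.Prime] (ι : Qb →ₐ[ℚ] Cq q) (τ : GLq q) : ∃ g : GQ, Restr ι τ g := by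
  obtain ⟨g, hg⟩ := G1_aux ι (((τ : Cq q →ₐ[ℚ_[q]] Cq q).restrictScalars ℚ).comp ι)
  exact ⟨g, fun x => (hg x).symm⟩

/-- two embeddings differ by an automorphism -/
theorem emb_conj {q : ℕ} [Fact q.Prime] (ι ι' : Qb →ₐ[ℚ] Cq q) :
    ∃ g : GQ, ∀ x : Qb, ι' x = ι (g x) := by
  exact G1_aux ι ι'

end KE16
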