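import Pool.Agent.LibKL60.B

/-!
# MP_3c6ab9 (Kurihara), local block, row P1: norms of the coordinates of a point of y^2 = x^3 - x^2 - 3x - 1

PLAN
Ultrametric estimates (`norm_add_le`, `norm_sub_le`, `norm_int_le`, `norm_nat_le`). `coord_int`:
`‖y‖^2 = ‖x^3 - x^2 - 3x - 1‖ ≤ 1`. `coord_big`: `‖x^2 + 3 x + 1‖ < ‖x^3‖`, so `‖y^2‖ = ‖x^3‖`
(`norm_add_eq_left`). `coord_sing`: the identity `(19 - 15 x) (x^3 - x^2 - 3x - 1) + (-9 - 8x +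
5x^2) (3x^2 - 2x - 3) = 8`: the first term is `(19 - 15x) y^2`, of norm `< 1`, so the second term
has norm `‖8‖ = 1`; both factors have norm `≤ 1`.
-/

set_option linter.unusedVariables false

namespace KL60

private theorem p1_c {L : Type*} [NormedField L] [IsUltrametricDist L] (n : ℕ) [n.AtLeastTwo] :
    ‖(OfNat.ofNat n : L)‖ ≤ 1 := by
  have := norm_nat_le (L := L) (OfNat.ofNat n)
  rwa [Nat.cast_ofNat] at this

private theorem p1_mul {L : Type*} [NormedField L] {a b : L} (ha : ‖a‖ ≤ 1) (hb : ‖b‖ ≤ 1) :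
    ‖a * b‖ ≤ 1 := by
  rw [norm_mul]
  exact mul_le_one₀ ha (norm_nonneg _) hb

private theorem p1_pow {L : Type*} [NormedField L] {a : L} (ha : ‖a‖ ≤ 1) (n : ℕ) :
    ‖a ^ n‖ ≤ 1 := by
  rw [norm_pow]
  exact pow_le_one₀ (norm_nonneg _) ha

theorem coord_int {L : Type*} [NormedField L] [IsUltrametricDist L] (x y : L)
    (h : y ^ 2 = x ^ 3 - x ^ 2 - 3 * x - 1) (hx : ‖x‖ ≤ 1) : ‖y‖ ≤ 1 := by
  have h1 : ‖y ^ 2‖ ≤ 1 := by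
    rw [h]
    refine norm_sub_le (norm_sub_le (norm_sub_le (p1_pow hx 3) (p1_pow hx 2))
      (p1_mul (p1_c 3) hx)) ?_
    rw [norm_one]
  rw [norm_pow] at h1
  exact (sq_le_one_iff₀ (norm_nonneg _)).mp h1

theorem coord_big {L : Type*} [NormedField L] [IsUltrametricDist L] (x y : L)
    (h : y ^ 2 = x ^ 3 - x ^ 2 - 3 * x - 1) (hx : 1 < ‖x‖) : ‖y‖ ^ 2 = ‖x‖ ^ 3 := by
  have h0 : (0 : ℝ) < ‖x‖ := by linarith
  have e : y ^ 2 = x ^ 3 + -(x ^ 2 + 3 * x + 1) := by rw [h]; ring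
  have c : ‖-(x ^ 2 + 3 * x + 1)‖ < ‖x ^ 3‖ := by
    rw [norm_neg]
    have h3 : ‖x ^ 3‖ = ‖x‖ ^ 3 := norm_pow _ _
    have g1 : ‖x‖ ^ 2 < ‖x‖ ^ 3 := pow_lt_pow_right₀ hx (by norm_num)
    have g2 : ‖x‖ < ‖x‖ ^ 3 := by
      have := pow_lt_pow_right₀ (m := 1) (n := 3) hx (by norm_num)
      simpa using this
    rw [h3]
    refine norm_add_lt (norm_add_lt ?_ ?_) ?_
    · rw [norm_pow]; exact g1
    · rw [norm_mul]
      calc ‖(3 : L)‖ * ‖x‖ ≤ 1 * ‖x‖ := mul_le_mul_of_nonneg_right (p1_c 3) h0.le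
        _ = ‖x‖ := one_mul _
        _ < ‖x‖ ^ 3 := g2
    · rw [norm_one]
      exact one_lt_pow₀ hx (by norm_num)
  have := norm_add_eq_left c
  rw [← e, norm_pow, norm_pow] at this
  exact this

theorem coord_sing {L : Type*} [NormedField L] [IsUltrametricDist L] (h2 : ‖(2 : L)‖ = 1) (x y : L)
    (h : y ^ 2 = x ^ 3 - x ^ 2 - 3 * x - 1) (hx : ‖x‖ ≤ 1) (hy : ‖y‖ < 1) :
    ‖3 * x ^ 2 - 2 * x - 3‖ = 1 := by
  have hA : ‖3 * x ^ 2 - 2 * x - 3‖ ≤ 1 :=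
    norm_sub_le (norm_sub_le (p1_mul (p1_c 3) (p1_pow hx 2)) (p1_mul (p1_c 2) hx)) (p1_c 3)
  have hB : ‖(-9 - 8 * x + 5 * x ^ 2 : L)‖ ≤ 1 :=
    norm_add_le (norm_sub_le (by rw [norm_neg]; exact p1_c 9) (p1_mul (p1_c 8) hx))
      (p1_mul (p1_c 5) (p1_pow hx 2))
  have hC : ‖(19 - 15 * x) * y ^ 2‖ < 1 := by
    rw [norm_mul]
    have c1 : ‖(19 - 15 * x : L)‖ ≤ 1 := norm_sub_le (p1_c 19) (p1_mul (p1_c 15) hx)
    have c2 : ‖y ^ 2‖ < 1 := by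
      rw [norm_pow]
      exact pow_lt_one₀ (norm_nonneg _) hy (by norm_num)
    calc ‖(19 - 15 * x : L)‖ * ‖y ^ 2‖ ≤ 1 * ‖y ^ 2‖ := mul_le_mul_of_nonneg_right c1 (norm_nonneg _)
      _ = ‖y ^ 2‖ := one_mul _
      _ < 1 := c2
  have h8 : ‖(8 : L)‖ = 1 := by
    have : (8 : L) = 2 ^ 3 := by norm_num
    rw [this, norm_pow, h2, one_pow]
  have key : (-9 - 8 * x + 5 * x ^ 2) * (3 * x ^ 2 - 2 * x - 3) = 8 + -((19 - 15 * x) * y ^ 2) := by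
    rw [h]; ring
  have hn : ‖(-9 - 8 * x + 5 * x ^ 2) * (3 * x ^ 2 - 2 * x - 3)‖ = 1 := by
    rw [key, norm_add_eq_left (by rw [norm_neg, h8]; exact hC), h8]
  rw [norm_mul] at hn
  refine le_antisymm hA ?_
  calc (1 : ℝ) = ‖(-9 - 8 * x + 5 * x ^ 2 : L)‖ * ‖3 * x ^ 2 - 2 * x - 3‖ := hn.symm
    _ ≤ 1 * ‖3 * x ^ 2 - 2 * x - 3‖ := mul_le_mul_of_nonneg_right hB (norm_nonneg _)
    _ = _ := one_mul _

end KL60
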