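import Pool.Agent.LibKL60.PB
import Pool.Agent.LibKL60.P1

/-!
# MP_3c6ab9 (Kurihara), local block, row P4: two integral points with the same reduction differ by a point of E_1

PLAN
`IsE W` (file PB): `W` is the curve `y^2 = x^3 - x^2 - 3x - 1`; `IntP P`: the point `P` is not `0`
and its `x`-coordinate has norm `≤ 1`; `eqE` gives the equation of a point. Group law of Mathlib:
`WeierstrassCurve.Affine.Point.add_of_X_ne`, `add_of_Y_ne`, `add_self_of_Y_ne`, `add_of_Y_eq`,
`add_some`, slope: `WeierstrassCurve.Affine.slope_of_X_ne`, `slope_of_Y_ne`, `slope_of_Y_eq`,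
`WeierstrassCurve.Affine.addX`, `negY`.

The difference is `(x', y') + (x, -y)`. `‖x'‖ ≤ 1`, `‖y‖ ≤ 1`, `‖y'‖ ≤ 1` (`coord_int`).
(A) `x' = x` and `y' = y`: the difference is `0` (`sub_self`), not integral. (B) `x' = x`, `y' =
-y /= y`: `‖2 y‖ = ‖y' - y‖ < 1`, so `‖y‖ < 1`; the difference is `-(2 (x, y))` (or `(x, -y) + (x,
-y)`): doubling, slope `λ = (3x^2 - 2x - 3)/(2 y₀)` with `y₀ = ± y /= 0`, `‖λ‖ > 1` by
`coord_sing`, `x₃ = λ^2 + 1 - 2 x`, so `‖x₃‖ = ‖λ‖^2 > 1`. (If `x' = x` then `y'^2 = y^2`, so one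
of the two cases holds.)
(C) `x' /= x`: slope `λ = (y' + y)/(x' - x)`, `x₃ = λ^2 + 1 - x - x'`; it is enough that `‖λ‖ >
1`. If `‖y‖ = 1`: `‖y' + y‖ = ‖2 y + (y' - y)‖ = 1` and `‖x' - x‖ < 1`. If `‖y‖ < 1`: `(y' + y)
(y' - y) = (x' - x) (x'^2 + x x' + x^2 - x - x' - 3)`, and the last factor is `3x^2 - 2x - 3 +`
(terms with a factor `x' - x`), of norm `1` by `coord_sing`; so `y' - y /= 0` and `‖λ‖ = 1 / ‖y' -
y‖ > 1`.
-/

set_option linter.unusedVariables false

namespace KL60

private theorem aux1 {L : Type*} [NormedField L] [IsUltrametricDist L] {ℓ x x' : L}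
    (hl : 1 < ‖ℓ‖) (hx : ‖x‖ ≤ 1) (hx' : ‖x'‖ ≤ 1) : ¬ ‖ℓ ^ 2 + 1 - x' - x‖ ≤ 1 := by
  intro h
  have e : ℓ ^ 2 = (ℓ ^ 2 + 1 - x' - x) - (1 - x' - x) := by ring
  have h2 : ‖ℓ ^ 2‖ ≤ 1 := by
    rw [e]
    exact norm_sub_le h (norm_sub_le (norm_sub_le norm_one.le hx') hx)
  rw [norm_pow] at h2
  exact absurd h2 (not_le.2 (one_lt_pow₀ hl two_ne_zero))

theorem red_eq {L : Type*} [NormedField L] [IsUltrametricDist L] [DecidableEq L]
    {W : WeierstrassCurve.Affine L} (hW : IsE W) (h2 : ‖(2 : L)‖ = 1) {x y x' y' : L}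
    (h : W.Nonsingular x y) (h' : W.Nonsingular x' y') (hx : ‖x‖ ≤ 1) (hxx : ‖x' - x‖ < 1)
    (hyy : ‖y' - y‖ < 1) :
    ¬ IntP ((.some x' y' h' : W.Point) - (.some x y h : W.Point)) := by
  have e1 := eqE hW h
  have e1' := eqE hW h'
  have hx' : ‖x'‖ ≤ 1 := by
    have e : x' = (x' - x) + x := by ring
    rw [e]
    exact norm_add_le hxx.le hx
  have hy := coord_int x y e1 hx
  have h20 : (2 : L) ≠ 0 := by
    intro h0
    rw [h0, norm_zero] at h2
    exact zero_ne_one h2
  by_cases hc : x' = x ∧ y' = W.negY x (W.negY x y)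
  · rw [sub_eq_add_neg, WeierstrassCurve.Affine.Point.neg_some,
      WeierstrassCurve.Affine.Point.add_of_Y_eq hc.1 hc.2]
    exact intP_zero
  · rw [sub_eq_add_neg, WeierstrassCurve.Affine.Point.neg_some,
      WeierstrassCurve.Affine.Point.add_some hc, intP_some, addXE hW]
    apply aux1 _ hx hx'
    rw [negYE hW, negYE hW, neg_neg] at hc
    by_cases hxe : x' = x
    · subst hxe
      have hyne : y' ≠ y := fun hh => hc ⟨rfl, hh⟩
      have e2 : (y' - y) * (y' + y) = 0 := by linear_combination e1' - e1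
      have e3 : y' = -y := by
        rcases mul_eq_zero.1 e2 with h3 | h3
        · exact absurd (sub_eq_zero.1 h3) hyne
        · exact eq_neg_of_add_eq_zero_left h3
      have hy0 : y ≠ 0 := by
        intro h0
        apply hyne
        rw [e3, h0, neg_zero]
      have e4 : y' - y = -(2 * y) := by rw [e3]; ring
      have hylt : ‖y‖ < 1 := by
        rw [e4, norm_neg, norm_mul, h2, one_mul] at hyy
        exact hyy
      rw [negYE hW, e3, slopeE2 hW h20 (neg_ne_zero.2 hy0), norm_div,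
        coord_sing h2 x' y e1 hx hylt, norm_mul, h2, one_mul, norm_neg]
      exact one_lt_one_div (norm_pos_iff.2 hy0) hylt
    · have hxne : x' - x ≠ 0 := sub_ne_zero.2 hxe
      rw [slopeE hW hxe, negYE hW, sub_neg_eq_add]
      rcases lt_or_eq_of_le hy with hylt | hyeq
      · have hQ1 := coord_sing h2 x y e1 hx hylt
        have hQ : ‖x' ^ 2 + x * x' + x ^ 2 - x - x' - 3‖ = 1 := by
          have e : x' ^ 2 + x * x' + x ^ 2 - x - x' - 3
              = (3 * x ^ 2 - 2 * x - 3) + (x' - x) * (x' + 2 * x - 1) := by ring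
          rw [e, norm_add_eq_left, hQ1]
          rw [hQ1, norm_mul]
          have h3 : ‖x' + 2 * x - 1‖ ≤ 1 := by
            apply norm_sub_le _ norm_one.le
            apply norm_add_le hx'
            rw [norm_mul, h2, one_mul]
            exact hx
          calc ‖x' - x‖ * ‖x' + 2 * x - 1‖ ≤ ‖x' - x‖ * 1 :=
                mul_le_mul_of_nonneg_left h3 (norm_nonneg _)
            _ < 1 := by rw [mul_one]; exact hxx
        have e5 : (y' + y) * (y' - y) = (x' - x) * (x' ^ 2 + x * x' + x ^ 2 - x - x' - 3) := by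
          linear_combination e1' - e1
        have hQ0 : x' ^ 2 + x * x' + x ^ 2 - x - x' - 3 ≠ 0 := by
          intro h0
          rw [h0, norm_zero] at hQ
          exact zero_ne_one hQ
        have hyne : y' - y ≠ 0 := by
          intro h0
          rw [h0, mul_zero] at e5
          exact mul_ne_zero hxne hQ0 e5.symm
        have e6 : (y' + y) / (x' - x) = (x' ^ 2 + x * x' + x ^ 2 - x - x' - 3) / (y' - y) := by
          rw [div_eq_div_iff hxne hyne, e5]
          ring
        rw [e6, norm_div, hQ]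
        exact one_lt_one_div (norm_pos_iff.2 hyne) hyy
      · have h3 : ‖y' + y‖ = 1 := by
          have e : y' + y = 2 * y + (y' - y) := by ring
          have h4 : ‖2 * y‖ = 1 := by rw [norm_mul, h2, hyeq, one_mul]
          rw [e, norm_add_eq_left (by rw [h4]; exact hyy), h4]
        rw [norm_div, h3]
        exact one_lt_one_div (norm_pos_iff.2 hxne) hxx

end KL60
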