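import Pool.Agent.LibKL60.PB
import Pool.Agent.LibKL60.P1

/-!
# MP_3c6ab9 (Kurihara), local block, row P2: integral point plus point of E_1 is integral

PLAN
`IsE W` (file PB): `W` is the curve `y^2 = x^3 - x^2 - 3x - 1`; `IntP P`: the point `P` is not `0`
and its `x`-coordinate has norm `≤ 1`; `eqE` gives the equation of a point. Group law of Mathlib:
`WeierstrassCurve.Affine.Point.add_of_X_ne`, `add_of_Y_ne`, `add_self_of_Y_ne`, `add_of_Y_eq`,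
`add_some`, slope: `WeierstrassCurve.Affine.slope_of_X_ne`, `slope_of_Y_ne`, `slope_of_Y_eq`,
`WeierstrassCurve.Affine.addX`, `negY`.

`Q = 0`: trivial. `Q = (x₂, y₂)`, `‖x₂‖ > 1`, `P = (x₁, y₁)`, `‖x₁‖ ≤ 1`, so `x₁ /= x₂` and the
sum is the affine point with `x₃ = λ^2 + 1 - x₁ - x₂`, `λ = (y₁ - y₂)/(x₁ - x₂)` (`addX` with `a₁
= 0`, `a₂ = -1`). With the two equations
`x₃ (x₁ - x₂)^2 = x₂^2 x₁ + x₂ x₁^2 - 2 x₂ x₁ - 3 (x₁ + x₂) - 2 - 2 y₂ y₁` (`field_simp`,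
`linear_combination`). The right side has norm `≤ ‖x₂‖^2`: `‖x₁‖ ≤ 1`, `‖y₁‖ ≤ 1` (`coord_int`),
`‖y₂‖^2 = ‖x₂‖^3 ≤ ‖x₂‖^4`, so `‖y₂‖ ≤ ‖x₂‖^2` (`coord_big`); and `‖(x₁ - x₂)^2‖ = ‖x₂‖^2`. So
`‖x₃‖ ≤ 1`.
-/

set_option linter.unusedVariables false

namespace KL60

theorem int_add {L : Type*} [NormedField L] [IsUltrametricDist L] [DecidableEq L]
    {W : WeierstrassCurve.Affine L} (hW : IsE W) (P Q : W.Point) (hP : IntP P) (hQ : ¬ IntP Q) :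
    IntP (P + Q) := by
  rcases Q with _ | ⟨x₂, y₂, h₂⟩
  · change IntP (P + 0)
    rw [add_zero]
    exact hP
  rcases P with _ | ⟨x₁, y₁, h₁⟩
  · exact absurd hP intP_zero
  have hx1 : ‖x₁‖ ≤ 1 := hP
  have hx2 : 1 < ‖x₂‖ := not_le.1 hQ
  have hne : x₁ ≠ x₂ := by
    rintro rfl
    linarith
  have e1 := eqE hW h₁
  have e2 := eqE hW h₂
  have hy1 : ‖y₁‖ ≤ 1 := coord_int x₁ y₁ e1 hx1
  have hy2 : ‖y₂‖ ^ 2 = ‖x₂‖ ^ 3 := coord_big x₂ y₂ e2 hx2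
  have hy2' : ‖y₂‖ ≤ ‖x₂‖ ^ 2 := by
    refine le_of_sq_le_sq ?_ (by positivity)
    rw [hy2, ← pow_mul]
    exact pow_le_pow_right₀ hx2.le (by norm_num)
  rw [WeierstrassCurve.Affine.Point.add_of_X_ne hne]
  change ‖W.addX x₁ x₂ (W.slope x₁ x₂ y₁ y₂)‖ ≤ 1
  rw [addXE hW, slopeE hW hne]
  have hsub : x₁ - x₂ ≠ 0 := sub_ne_zero.2 hne
  have key : (((y₁ - y₂) / (x₁ - x₂)) ^ 2 + 1 - x₁ - x₂) * (x₁ - x₂) ^ 2 =
      x₂ ^ 2 * x₁ + x₂ * x₁ ^ 2 - 2 * (x₂ * x₁) - 3 * (x₁ + x₂) - 2 - 2 * (y₂ * y₁) := by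
    field_simp
    linear_combination e1 + e2
  have hn : ‖x₁ - x₂‖ = ‖x₂‖ := by
    rw [← norm_neg, neg_sub]
    have := norm_add_eq_left (x := x₂) (y := -x₁) (by rw [norm_neg]; linarith)
    rwa [← sub_eq_add_neg] at this
  have h1s : (1 : ℝ) ≤ ‖x₂‖ ^ 2 := one_le_pow₀ hx2.le
  have hxs : ‖x₂‖ ≤ ‖x₂‖ ^ 2 := by nlinarith
  have m1 : ∀ a b : L, ‖a‖ ≤ 1 → ‖b‖ ≤ ‖x₂‖ ^ 2 → ‖a * b‖ ≤ ‖x₂‖ ^ 2 := fun a b ha hb => by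
    rw [norm_mul]
    calc ‖a‖ * ‖b‖ ≤ 1 * ‖x₂‖ ^ 2 := mul_le_mul ha hb (norm_nonneg _) zero_le_one
      _ = ‖x₂‖ ^ 2 := one_mul _
  have c2 : ‖(2 : L)‖ ≤ 1 := by simpa using norm_nat_le (L := L) 2
  have c3 : ‖(3 : L)‖ ≤ 1 := by simpa using norm_nat_le (L := L) 3
  have hb : ‖x₂ ^ 2 * x₁ + x₂ * x₁ ^ 2 - 2 * (x₂ * x₁) - 3 * (x₁ + x₂) - 2 - 2 * (y₂ * y₁)‖ ≤
      ‖x₂‖ ^ 2 := by
    refine norm_sub_le (norm_sub_le (norm_sub_le (norm_sub_le (norm_add_le ?_ ?_) ?_) ?_) ?_) ?_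
    · rw [mul_comm]
      exact m1 _ _ hx1 (by rw [norm_pow])
    · rw [mul_comm]
      exact m1 _ _ (by rw [norm_pow]; exact pow_le_one₀ (norm_nonneg _) hx1) hxs
    · refine m1 _ _ c2 ?_
      rw [mul_comm]
      exact m1 _ _ hx1 hxs
    · exact m1 _ _ c3 (norm_add_le (hx1.trans h1s) hxs)
    · exact c2.trans h1s
    · refine m1 _ _ c2 ?_
      rw [mul_comm]
      exact m1 _ _ hy1 hy2'
  rw [← key, norm_mul, norm_pow, hn] at hb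
  have hpos : 0 < ‖x₂‖ ^ 2 := by positivity
  exact le_of_mul_le_mul_right (by rwa [one_mul]) hpos

end KL60
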