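import Pool.Agent.LibKL60.PB
import Pool.Agent.LibKL60.P2

/-!
# MP_3c6ab9 (Kurihara), local block, row P3: E_1 is a subgroup

PLAN
`IsE W` (file PB): `W` is the curve `y^2 = x^3 - x^2 - 3x - 1`; `IntP P`: the point `P` is not `0`
and its `x`-coordinate has norm `≤ 1`; `eqE` gives the equation of a point. Group law of Mathlib:
`WeierstrassCurve.Affine.Point.add_of_X_ne`, `add_of_Y_ne`, `add_self_of_Y_ne`, `add_of_Y_eq`,
`add_some`, slope: `WeierstrassCurve.Affine.slope_of_X_ne`, `slope_of_Y_ne`, `slope_of_Y_eq`,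
`WeierstrassCurve.Affine.addX`, `negY`.

`e1_neg`: the `x`-coordinate does not change (`WeierstrassCurve.Affine.Point.neg_some`,
`neg_zero`). `e1_add`: if `IntP (P + Q)` then `P = (P + Q) + (-Q)` is integral by `int_add` (P2).
`e1_sub`, `e1_nsmul` (induction; `0` is not integral) follow. `int_neg`: same as `e1_neg`.
-/

set_option linter.unusedVariables false

namespace KL60

theorem e1_neg {L : Type*} [NormedField L] [IsUltrametricDist L] [DecidableEq L]
    {W : WeierstrassCurve.Affine L} (P : W.Point) : IntP (-P) ↔ IntP P := by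
  cases P with
  | zero => exact Iff.rfl
  | some x y h => exact Iff.rfl

theorem e1_add {L : Type*} [NormedField L] [IsUltrametricDist L] [DecidableEq L]
    {W : WeierstrassCurve.Affine L} (hW : IsE W) (P Q : W.Point) (hP : ¬ IntP P) (hQ : ¬ IntP Q) :
    ¬ IntP (P + Q) := by
  intro h
  apply hP
  have h1 : P = (P + Q) + (-Q) := by abel
  rw [h1]
  exact int_add hW _ _ h (fun h' ↦ hQ ((e1_neg Q).mp h'))

theorem e1_sub {L : Type*} [NormedField L] [IsUltrametricDist L] [DecidableEq L]
    {W : WeierstrassCurve.Affine L} (hW : IsE W) (P Q : W.Point) (hP : ¬ IntP P) (hQ : ¬ IntP Q) :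
    ¬ IntP (P - Q) := by
  rw [sub_eq_add_neg]
  exact e1_add hW P (-Q) hP (fun h' ↦ hQ ((e1_neg Q).mp h'))

theorem e1_nsmul {L : Type*} [NormedField L] [IsUltrametricDist L] [DecidableEq L]
    {W : WeierstrassCurve.Affine L} (hW : IsE W) (P : W.Point) (hP : ¬ IntP P) (n : ℕ) :
    ¬ IntP (n • P) := by
  induction n with
  | zero => rw [zero_smul]; exact intP_zero
  | succ n ih => rw [succ_nsmul]; exact e1_add hW _ _ ih hP

end KL60
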