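import Pool.Agent.LibKL60.PB

/-!
# MP_3c6ab9 (Kurihara), local block, row P5: the 3-division polynomial

PLAN
`IsE W` (file PB): `W` is the curve `y^2 = x^3 - x^2 - 3x - 1`; `IntP P`: the point `P` is not `0`
and its `x`-coordinate has norm `≤ 1`; `eqE` gives the equation of a point. Group law of Mathlib:
`WeierstrassCurve.Affine.Point.add_of_X_ne`, `add_of_Y_ne`, `add_self_of_Y_ne`, `add_of_Y_eq`,
`add_some`, slope: `WeierstrassCurve.Affine.slope_of_X_ne`, `slope_of_Y_ne`, `slope_of_Y_eq`,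
`WeierstrassCurve.Affine.addX`, `negY`.

`3 • P = 0` means `P + P = -P`. If `y = 0` then `P = -P`, `P + P = 0`, so `-P = 0`, impossible for
an affine point. So `y /= -y` (`2 /= 0`), the double is the affine point with `x₃ = λ^2 + 1 - 2
x`, `λ = (3x^2 - 2x - 3)/(2 y)` (`slope_of_Y_ne`, `addX`), and `-P` has `x`-coordinate `x`: `λ^2 =
3 x - 1`, i.e. `(3x^2 - 2x - 3)^2 = (3x - 1) 4 y^2 = 4 (3x - 1)(x^3 - x^2 - 3x - 1)`, which is
`(x^2 - 2x - 5)(3x^2 + 2x + 1) = 0` (the right side minus the left side is `3x^4 - 4x^3 - 18x^2 -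
12x - 5`).
-/

set_option linter.unusedVariables false

namespace KL60

theorem psi3 {L : Type*} [Field L] [DecidableEq L] {W : WeierstrassCurve.Affine L} (hW : IsE W)
    (h2 : (2 : L) ≠ 0) {x y : L} (h : W.Nonsingular x y) (h3 : 3 • (.some x y h : W.Point) = 0) :
    (x ^ 2 - 2 * x - 5) * (3 * x ^ 2 + 2 * x + 1) = 0 ∧ y ≠ 0 := by
  have hne : (.some x y h : W.Point) ≠ 0 := WeierstrassCurve.Affine.Point.some_ne_zero h
  have h3' : (.some x y h : W.Point) + (.some x y h : W.Point) = -(.some x y h : W.Point) := by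
    rw [eq_neg_iff_add_eq_zero]
    rw [← h3]
    abel
  have hy : y ≠ 0 := by
    intro hy
    have h4 : y = W.negY x y := by
      rw [negYE hW, hy, neg_zero]
    rw [WeierstrassCurve.Affine.Point.add_self_of_Y_eq h4] at h3'
    exact hne (neg_eq_zero.1 h3'.symm)
  refine ⟨?_, hy⟩
  have hy' : y ≠ W.negY x y := by
    rw [negYE hW]
    intro h5
    apply hy
    have : (2 : L) * y = 0 := by linear_combination h5
    rcases mul_eq_zero.mp this with h' | h'
    · exact absurd h' h2
    · exact h'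
  rw [WeierstrassCurve.Affine.Point.add_self_of_Y_ne hy', WeierstrassCurve.Affine.Point.neg_some] at h3'
  have h6 : W.addX x x (W.slope x x y y) = x := by
    simp only [WeierstrassCurve.Affine.Point.some.injEq] at h3'
    exact h3'.1
  rw [addXE hW, slopeE2 hW h2 hy] at h6
  have h7 : (2 * y) ≠ 0 := mul_ne_zero h2 hy
  have h8 : (3 * x ^ 2 - 2 * x - 3) ^ 2 = (3 * x - 1) * (2 * y) ^ 2 := by
    field_simp at h6
    linear_combination h6
  have h9 := eqE hW h
  linear_combination -h8 - 4 * (3 * x - 1) * h9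

end KL60
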