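import Pool.Agent.LibKL60.PB
import Pool.Agent.LibKL60.P3
import Pool.Agent.LibKL60.P5

/-!
# MP_3c6ab9 (Kurihara), local block, row P6: E_1 has no 3-power torsion if 3 is a unit

PLAN
`IsE W` (file PB): `W` is the curve `y^2 = x^3 - x^2 - 3x - 1`; `IntP P`: the point `P` is not `0`
and its `x`-coordinate has norm `≤ 1`; `eqE` gives the equation of a point. Group law of Mathlib:
`WeierstrassCurve.Affine.Point.add_of_X_ne`, `add_of_Y_ne`, `add_self_of_Y_ne`, `add_of_Y_eq`,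
`add_some`, slope: `WeierstrassCurve.Affine.slope_of_X_ne`, `slope_of_Y_ne`, `slope_of_Y_eq`,
`WeierstrassCurve.Affine.addX`, `negY`.

First `3 • P = 0` and `¬ IntP P` imply `P = 0`: otherwise `P = (x, y)` with `‖x‖ > 1`, and `psi3`
(P5) gives `3x^4 = 4x^3 + 18x^2 + 12x + 5`; the left side has norm `‖x‖^4`, the right side norm `≤
‖x‖^3` (or: `‖x^2 - 2x - 5‖ = ‖x‖^2`, `‖3x^2 + 2x + 1‖ = ‖x‖^2`, both nonzero). Then induction on
`k`: `3^(k+1) • P = 3 • (3^k • P)` and `3^k • P` is in `E_1` by `e1_nsmul` (P3).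
-/

set_option linter.unusedVariables false

namespace KL60

private theorem p6_base {L : Type*} [NormedField L] [IsUltrametricDist L] [DecidableEq L]
    {W : WeierstrassCurve.Affine L} (hW : IsE W) (h2 : (2 : L) ≠ 0) (h3 : ‖(3 : L)‖ = 1)
    (P : W.Point) (hP : ¬ IntP P) (hk : 3 • P = 0) : P = 0 := by
  rcases P with _ | ⟨x, y, h⟩
  · rfl
  exfalso
  have hx : 1 < ‖x‖ := not_le.1 hP
  have h0 : (0 : ℝ) < ‖x‖ := by linarith
  have key := (psi3 hW h2 h hk).1
  have g1 : ‖x‖ < ‖x‖ ^ 2 := by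
    have := pow_lt_pow_right₀ (m := 1) (n := 2) hx (by norm_num)
    simpa using this
  have g2 : (1 : ℝ) < ‖x‖ ^ 2 := one_lt_pow₀ hx (by norm_num)
  have c2 : ‖(2 : L)‖ ≤ 1 := by simpa using norm_nat_le (L := L) 2
  have c5 : ‖(5 : L)‖ ≤ 1 := by simpa using norm_nat_le (L := L) 5
  have c2x : ‖2 * x‖ < ‖x‖ ^ 2 := by
    rw [norm_mul]
    calc ‖(2 : L)‖ * ‖x‖ ≤ 1 * ‖x‖ := mul_le_mul_of_nonneg_right c2 h0.le
      _ = ‖x‖ := one_mul _
      _ < ‖x‖ ^ 2 := g1
  rcases mul_eq_zero.mp key with h' | h'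
  · have e : x ^ 2 = 2 * x + 5 := by linear_combination h'
    have e2 : ‖x ^ 2‖ < ‖x‖ ^ 2 := by
      rw [e]
      exact norm_add_lt c2x (c5.trans_lt g2)
    rw [norm_pow] at e2
    exact lt_irrefl _ e2
  · have e : 3 * x ^ 2 = -(2 * x + 1) := by linear_combination h'
    have e2 : ‖3 * x ^ 2‖ < ‖x‖ ^ 2 := by
      rw [e, norm_neg]
      exact norm_add_lt c2x (by rw [norm_one]; exact g2)
    rw [norm_mul, h3, one_mul, norm_pow] at e2
    exact lt_irrefl _ e2

theorem e1_tor {L : Type*} [NormedField L] [IsUltrametricDist L] [DecidableEq L]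
    {W : WeierstrassCurve.Affine L} (hW : IsE W) (h2 : (2 : L) ≠ 0) (h3 : ‖(3 : L)‖ = 1)
    (P : W.Point) (hP : ¬ IntP P) (k : ℕ) (hk : 3 ^ k • P = 0) : P = 0 := by
  induction k with
  | zero => rwa [pow_zero, one_smul] at hk
  | succ k ih =>
    apply ih
    apply p6_base hW h2 h3 _ (e1_nsmul hW P hP _)
    rw [← mul_smul, ← pow_succ']
    exact hk

end KL60
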