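import Pool.Agent.LibKL60.PB
import Pool.Agent.LibKL60.P5

/-!
# MP_3c6ab9 (Kurihara), local block, row P7: 3-torsion in E_1 at the place 3

PLAN
`IsE W` (file PB): `W` is the curve `y^2 = x^3 - x^2 - 3x - 1`; `IntP P`: the point `P` is not `0`
and its `x`-coordinate has norm `≤ 1`; `eqE` gives the equation of a point. Group law of Mathlib:
`WeierstrassCurve.Affine.Point.add_of_X_ne`, `add_of_Y_ne`, `add_self_of_Y_ne`, `add_of_Y_eq`,
`add_some`, slope: `WeierstrassCurve.Affine.slope_of_X_ne`, `slope_of_Y_ne`, `slope_of_Y_eq`,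
`WeierstrassCurve.Affine.addX`, `negY`.

`psi3` (P5): `x^2 - 2x - 5 = 0` or `3x^2 + 2x + 1 = 0`. The first is impossible (`‖x^2‖ > ‖2x +
5‖`). The second: `(3x + 1)^2 = -2 = s^2`, so `3x + 1 = s` or `3x + 1 = -s`. `(1 + s)(1 - s) = 3`.
`‖1 + s‖ = ‖2 + (s - 1)‖ = 1`. If `3x + 1 = s` then `3 x = -(1 - s)`, `x (1 + s) = -1`, `‖x‖ = 1`,
contradiction. If `3x + 1 = -s` then `3x = -(1 + s)`, so `x = -1/(1 - s)`. (`1 - s /= 0` because
its product with `1 + s` is `3 /= 0`.)
-/

set_option linter.unusedVariables false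

namespace KL60

theorem e1_three {L : Type*} [NormedField L] [IsUltrametricDist L] [CharZero L] [DecidableEq L]
    {W : WeierstrassCurve.Affine L} (hW : IsE W) (h2 : ‖(2 : L)‖ = 1) (s : L) (hs : s ^ 2 = -2)
    (hs1 : ‖s - 1‖ < 1) {x y : L} (h : W.Nonsingular x y) (hx : 1 < ‖x‖)
    (h3 : 3 • (.some x y h : W.Point) = 0) : x = -1 / (1 - s) := by
  have h0 : (0 : ℝ) < ‖x‖ := by linarith
  have key := (psi3 hW (by exact two_ne_zero) h h3).1
  have g1 : ‖x‖ < ‖x‖ ^ 2 := by
    have := pow_lt_pow_right₀ (m := 1) (n := 2) hx (by norm_num)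
    simpa using this
  have g2 : (1 : ℝ) < ‖x‖ ^ 2 := one_lt_pow₀ hx (by norm_num)
  have c5 : ‖(5 : L)‖ ≤ 1 := by simpa using norm_nat_le (L := L) 5
  rcases mul_eq_zero.mp key with h' | h'
  · exfalso
    have e : x ^ 2 = 2 * x + 5 := by linear_combination h'
    have e2 : ‖x ^ 2‖ < ‖x‖ ^ 2 := by
      rw [e]
      refine norm_add_lt ?_ (c5.trans_lt g2)
      rw [norm_mul, h2, one_mul]
      exact g1
    rw [norm_pow] at e2
    exact lt_irrefl _ e2
  · have hp : ‖1 + s‖ = 1 := by
      have e : (1 + s : L) = 2 + (s - 1) := by ring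
      rw [e, norm_add_eq_left (by rw [h2]; exact hs1), h2]
    have hprod : (1 + s) * (1 - s) = 3 := by linear_combination -hs
    have hm : (1 - s : L) ≠ 0 := by
      intro h0
      rw [h0, mul_zero] at hprod
      exact three_ne_zero hprod.symm
    have hp0 : (1 + s : L) ≠ 0 := by
      intro h0
      rw [h0, zero_mul] at hprod
      exact three_ne_zero hprod.symm
    have hsq : (3 * x + 1 - s) * (3 * x + 1 + s) = 0 := by
      linear_combination 3 * h' - hs
    rcases mul_eq_zero.mp hsq with h1 | h1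
    · exfalso
      have e : (1 - s) * (x * (1 + s) + 1) = 0 := by
        linear_combination x * hprod + h1
      rcases mul_eq_zero.mp e with h4 | h4
      · exact hm h4
      have e5 : x * (1 + s) = -1 := by linear_combination h4
      have e6 : ‖x * (1 + s)‖ = 1 := by rw [e5, norm_neg, norm_one]
      rw [norm_mul, hp, mul_one] at e6
      linarith
    · rw [eq_div_iff hm]
      have e : (1 + s) * (x * (1 - s) + 1) = 0 := by
        linear_combination x * hprod + h1
      rcases mul_eq_zero.mp e with h4 | h4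
      · exact absurd h4 hp0
      linear_combination h4

end KL60
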