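import Pool.Agent.LibKL60.B

/-!
# MP_3c6ab9 (Kurihara), local block, row Q1: the roots of X^4 + 4 X^2 + 6 outside 6

PLAN
`‖a‖ ≤ 1`: otherwise `‖a^4‖ > max ‖4 a^2‖ ‖6‖` (`norm_int_le`), so `‖a^4 + (4 a^2 + 6)‖ = ‖a^4‖ >
0` (`norm_add_eq_left`). `a * (a^3 + 4 a) = -6` and `‖6‖ = ‖2‖ ‖3‖ = 1`, both factors have norm `≤
1`, so `‖a‖ = 1`. Same for `b`. If `a /= b`: `(a^2 - b^2) * (a^2 + b^2 + 4) = 0`. Case `a^2 =
b^2`: `a = -b`, `‖a - b‖ = ‖2 a‖ = 1`. Case `b^2 = -4 - a^2`: `(a - b) * (a + b) = 2 * (a^2 + 2)`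
and `(a^2 + 2)^2 = -2`, so `‖a^2 + 2‖ = 1` and the product has norm `1`; both factors have norm `≤
1`, so `‖a - b‖ = 1`.
-/

set_option linter.unusedVariables false

namespace KL60

theorem quart_unit {L : Type*} [NormedField L] [IsUltrametricDist L] (h2 : ‖(2 : L)‖ = 1)
    (h3 : ‖(3 : L)‖ = 1) (a b : L) (ha : a ^ 4 + 4 * a ^ 2 + 6 = 0) (hb : b ^ 4 + 4 * b ^ 2 + 6 = 0) :
    ‖a‖ = 1 ∧ (a ≠ b → ‖a - b‖ = 1) := by
  have h4 : ‖(4 : L)‖ ≤ 1 := by simpa using norm_nat_le (L := L) 4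
  have h6 : ‖(6 : L)‖ = 1 := by
    have : (6 : L) = 2 * 3 := by norm_num
    rw [this, norm_mul, h2, h3, one_mul]
  have key : ∀ c : L, c ^ 4 + 4 * c ^ 2 + 6 = 0 → ‖c‖ = 1 := by
    intro c hc
    have hle : ‖c‖ ≤ 1 := by
      by_contra hlt
      push Not at hlt
      have h1 : ‖4 * c ^ 2 + 6‖ < ‖c ^ 4‖ := by
        have e1 : ‖4 * c ^ 2‖ ≤ ‖c‖ ^ 2 := by
          rw [norm_mul, norm_pow]
          calc ‖(4 : L)‖ * ‖c‖ ^ 2 ≤ 1 * ‖c‖ ^ 2 := by gcongr
            _ = ‖c‖ ^ 2 := one_mul _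
        have e2 : ‖(6 : L)‖ ≤ ‖c‖ ^ 2 := by
          rw [h6]
          nlinarith
        refine (norm_add_le e1 e2).trans_lt ?_
        rw [norm_pow]
        exact pow_lt_pow_right₀ hlt (by norm_num)
      have h5 := norm_add_eq_left h1
      rw [← add_assoc, hc, norm_zero, norm_pow] at h5
      have : 0 < ‖c‖ ^ 4 := by positivity
      linarith
    have hprod : ‖c‖ * ‖c ^ 3 + 4 * c‖ = 1 := by
      rw [← norm_mul]
      have : c * (c ^ 3 + 4 * c) = -6 := by linear_combination hc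
      rw [this, norm_neg, h6]
    have hle2 : ‖c ^ 3 + 4 * c‖ ≤ 1 := by
      apply norm_add_le
      · rw [norm_pow]
        exact pow_le_one₀ (norm_nonneg _) hle
      · rw [norm_mul]
        exact mul_le_one₀ h4 (norm_nonneg _) hle
    nlinarith [norm_nonneg c, norm_nonneg (c ^ 3 + 4 * c)]
  have hA := key a ha
  have hB := key b hb
  refine ⟨hA, ?_⟩
  intro hne
  have hfac : (a ^ 2 - b ^ 2) * (a ^ 2 + b ^ 2 + 4) = 0 := by linear_combination ha - hb
  rcases mul_eq_zero.mp hfac with h | h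
  · have h' : (a - b) * (a + b) = 0 := by linear_combination h
    rcases mul_eq_zero.mp h' with h'' | h''
    · exact absurd (sub_eq_zero.mp h'') hne
    · have : a - b = 2 * a := by linear_combination -h''
      rw [this, norm_mul, h2, hA, one_mul]
  · have hsq : ‖a ^ 2 + 2‖ = 1 := by
      have h1 : ‖a ^ 2 + 2‖ ^ 2 = 1 := by
        rw [← norm_pow]
        have : (a ^ 2 + 2) ^ 2 = -2 := by linear_combination ha
        rw [this, norm_neg, h2]
      exact (pow_eq_one_iff_of_nonneg (norm_nonneg _) (by norm_num)).mp h1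
    have hprod : ‖a - b‖ * ‖a + b‖ = 1 := by
      rw [← norm_mul]
      have : (a - b) * (a + b) = 2 * (a ^ 2 + 2) := by linear_combination -h
      rw [this, norm_mul, h2, hsq, one_mul]
    have e1 : ‖a - b‖ ≤ 1 := norm_sub_le hA.le hB.le
    have e2 : ‖a + b‖ ≤ 1 := norm_add_le hA.le hB.le
    nlinarith [norm_nonneg (a - b), norm_nonneg (a + b)]

end KL60
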