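import Pool.Agent.LibKL60.B

/-!
# MP_3c6ab9 (Kurihara), local block, row R3: the residue characteristic: z^q near 1 implies z near 1

PLAN
Put `t = z - 1`, `‖t‖ ≤ 1` (`norm_sub_le`). `z^q - 1 = (t + 1)^q - 1 = t^q + ∑ 0 < k < q, C(q,k)
t^k` (`add_pow`, split off the first and the last term of the sum with `Finset.sum_range_succ`,
`Finset.sum_range_succ'`). For `0 < k < q` the prime `q` divides `C(q,k)`
(`Nat.Prime.dvd_choose_self`), so
`‖C(q,k) t^k‖ ≤ ‖q‖ * 1 < 1` (`norm_nat_le`). Hence `‖t^q‖ < 1` (ultrametric inequality for the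
finite sum) and `‖t‖ < 1` (`norm_pow`, `pow_lt_one_iff_of_nonneg`). `frob_pow` : induction on `c`,
using `z^(q^(c+1)) = (z^(q^c))^q` and `‖z^(q^c)‖ ≤ 1`.
-/

set_option linter.unusedVariables false

namespace KL60

theorem frob_one {L : Type*} [NormedField L] [IsUltrametricDist L] (q : ℕ) (hp : q.Prime)
    (hq : ‖(q : L)‖ < 1) (z : L) (hz : ‖z‖ ≤ 1) (h : ‖z ^ q - 1‖ < 1) : ‖z - 1‖ < 1 := by
  obtain ⟨t, ht⟩ : ∃ t, t = z - 1 := ⟨_, rfl⟩
  have htn : ‖t‖ ≤ 1 := by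
    rw [ht]
    exact norm_sub_le hz (by simp)
  have hz' : z = t + 1 := by rw [ht]; ring
  obtain ⟨r, hr⟩ : ∃ r, q = r + 1 := ⟨q - 1, (Nat.succ_pred_prime hp).symm⟩
  have hexp : t ^ q = (z ^ q - 1) -
      ∑ k ∈ Finset.range r, t ^ (k + 1) * ((q.choose (k + 1) : ℕ) : L) := by
    rw [hz', add_pow, hr, Finset.sum_range_succ, Finset.sum_range_succ']
    simp
    ring
  have hrest : ∀ m : ℕ, m ≤ r →
      ‖∑ k ∈ Finset.range m, t ^ (k + 1) * ((q.choose (k + 1) : ℕ) : L)‖ < 1 := by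
    intro m
    induction m with
    | zero => intro _; simp
    | succ m ih =>
      intro hm
      rw [Finset.sum_range_succ]
      refine norm_add_lt (ih (by omega)) ?_
      have hd : q ∣ q.choose (m + 1) := hp.dvd_choose_self (by omega) (by omega)
      obtain ⟨c, hc⟩ := hd
      rw [hc, Nat.cast_mul, norm_mul, norm_mul, norm_pow]
      have e1 : ‖t‖ ^ (m + 1) ≤ 1 := pow_le_one₀ (norm_nonneg _) htn
      have e2 : ‖(c : L)‖ ≤ 1 := norm_nat_le c
      calc ‖t‖ ^ (m + 1) * (‖(q : L)‖ * ‖(c : L)‖) ≤ 1 * (‖(q : L)‖ * 1) := by gcongr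
        _ = ‖(q : L)‖ := by ring
        _ < 1 := hq
  have h1 : ‖t ^ q‖ < 1 := by
    rw [hexp]
    exact norm_sub_lt h (hrest r le_rfl)
  rw [norm_pow] at h1
  rw [← ht]
  exact (pow_lt_one_iff_of_nonneg (norm_nonneg _) hp.ne_zero).mp h1

theorem frob_pow {L : Type*} [NormedField L] [IsUltrametricDist L] (q : ℕ) (hp : q.Prime)
    (hq : ‖(q : L)‖ < 1) (c : ℕ) (z : L) (hz : ‖z‖ ≤ 1) (h : ‖z ^ q ^ c - 1‖ < 1) : ‖z - 1‖ < 1 := by
  induction c with
  | zero => simpa using h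
  | succ c ih =>
    apply ih
    apply frob_one q hp hq
    · rw [norm_pow]
      exact pow_le_one₀ (norm_nonneg _) hz
    · rw [← pow_mul, ← pow_succ]
      exact h

end KL60
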