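import Pool.Agent.LibKL60.B
import Pool.Agent.LibKL60.R3

/-!
# MP_3c6ab9 (Kurihara), local block, row R4: a unit has finite order modulo the maximal ideal

PLAN
(a) `w` is integral over `ℤ_[q]`: `‖w‖ = spectralNorm = spectralValue (minpoly ℚ_[q] w) ≤ 1`, so
all coefficients of `minpoly ℚ_[q] w` have norm `≤ 1` (`spectralValue_le_one_iff`,
`PadicAlgCl.spectralNorm_eq` is `rfl`); write `minpoly ℚ_[q] w = P.map (algebraMap ℤ_[q] ℚ_[q])`
with `P` monic over `ℤ_[q]` (coefficients `⟨c, hc⟩`, or `Polynomial.lifts`).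
(b) pigeonhole: the polynomials `X^i %ₘ P` have degree `< d := natDegree P`; consider their
reductions `Polynomial.map PadicInt.toZMod (X^i %ₘ P)` in `(ZMod q)[X]`, degree `< d`, or rather
the functions `Fin d → ZMod q`, `j ↦ toZMod (coeff (X^i %ₘ P) j)`; the target is finite, so there
are `i < i'` with equal images (`Finite.exists_ne_map_eq_of_infinite`). The difference `D = X^i'
%ₘ P - X^i %ₘ P` has all coefficients in the maximal ideal, norm `< 1` (`PadicInt.ker_toZMod`,
`PadicInt.mem_nonunits` or `PadicInt.norm_lt_one_iff_dvd`), so `w^i' - w^i = aeval w D` has norm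
`< 1` (`‖w^j‖ = 1`, ultrametric sum), and dividing by `w^i`: `‖w^n - 1‖ < 1` with `n = i' - i >
0`.
(c) remove the `q`-part: `n = q^c * n'`, `¬ q ∣ n'` (`Nat.exists_eq_pow_mul_and_not_dvd`),
`frob_pow` (file R3) for `z = w^n'`, with `‖(q : PadicAlgCl q)‖ = 1/q < 1` (`norm_q`).
Another way is welcome (for example: the residue field of the valuation ring is algebraic over
`ZMod q`).
-/

set_option linter.unusedVariables false

namespace KL60

open Polynomial in
/-- monic polynomial over the `q`-adic integers with root `w` -/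
private theorem R4_poly {q : ℕ} [Fact q.Prime] (w : PadicAlgCl q) (hw : ‖w‖ = 1) :
    ∃ P : ℤ_[q][X], P.Monic ∧
      P.eval₂ ((algebraMap ℚ_[q] (PadicAlgCl q)).comp (algebraMap ℤ_[q] ℚ_[q])) w = 0 := by
  have hint : IsIntegral ℚ_[q] w := (Algebra.IsAlgebraic.isAlgebraic w).isIntegral
  have hmon := minpoly.monic hint
  have h1 : spectralValue (minpoly ℚ_[q] w) ≤ 1 := by
    have h2 : spectralNorm ℚ_[q] (PadicAlgCl q) w = ‖w‖ := PadicAlgCl.spectralNorm_eq q w
    rw [hw] at h2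
    unfold spectralNorm at h2
    exact h2.le
  rw [spectralValue_le_one_iff hmon] at h1
  have h2 : minpoly ℚ_[q] w ∈ Polynomial.lifts (algebraMap ℤ_[q] ℚ_[q]) := by
    rw [Polynomial.lifts_iff_coeff_lifts]
    intro n
    exact ⟨⟨(minpoly ℚ_[q] w).coeff n, h1 n⟩, rfl⟩
  obtain ⟨P, hP1, hP2, hP3⟩ := Polynomial.lifts_and_natDegree_eq_and_monic h2 hmon
  refine ⟨P, hP3, ?_⟩
  rw [← Polynomial.eval₂_map, hP1]
  exact minpoly.aeval ℚ_[q] w

private theorem R4_sum {L : Type*} [NormedField L] [IsUltrametricDist L] (s : Finset ℕ)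
    (a : ℕ → L) (ha : ∀ i, ‖a i‖ < 1) : ‖∑ i ∈ s, a i‖ < 1 := by
  classical
  induction s using Finset.induction_on with
  | empty => simp
  | insert i s hi ih =>
    rw [Finset.sum_insert hi]
    exact norm_add_lt (ha i) ih

open Polynomial in
private theorem R4_pigeon {q : ℕ} [Fact q.Prime] (w : PadicAlgCl q) (hw : ‖w‖ = 1) :
    ∃ n : ℕ, 0 < n ∧ ‖w ^ n - 1‖ < 1 := by
  obtain ⟨P, hP, hPw⟩ := R4_poly w hw
  set f : ℤ_[q] →+* PadicAlgCl q :=
    (algebraMap ℚ_[q] (PadicAlgCl q)).comp (algebraMap ℤ_[q] ℚ_[q]) with hf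
  have hfn : ∀ a : ℤ_[q], ‖f a‖ = ‖a‖ := by
    intro a
    exact PadicAlgCl.norm_extends q (a : ℚ_[q])
  have hev : ∀ i : ℕ, (X ^ i %ₘ P).eval₂ f w = w ^ i := by
    intro i
    have h1 := congrArg (Polynomial.eval₂ f w) (modByMonic_add_div (X ^ i : ℤ_[q][X]) P)
    rw [eval₂_add, eval₂_mul, hPw, zero_mul, add_zero, eval₂_pow, eval₂_X] at h1
    exact h1
  obtain ⟨i, i', hne, heq⟩ := Finite.exists_ne_map_eq_of_infinite
    (fun i : ℕ => fun j : Fin P.natDegree => PadicInt.toZMod ((X ^ i %ₘ P).coeff j))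
  have key : ∀ i i' : ℕ, i < i' →
      (fun j : Fin P.natDegree => PadicInt.toZMod ((X ^ i %ₘ P).coeff j)) =
        (fun j : Fin P.natDegree => PadicInt.toZMod ((X ^ i' %ₘ P).coeff j)) →
      ∃ n : ℕ, 0 < n ∧ ‖w ^ n - 1‖ < 1 := by
    intro i i' hlt heq
    refine ⟨i' - i, by omega, ?_⟩
    set D : ℤ_[q][X] := X ^ i' %ₘ P - X ^ i %ₘ P with hD
    have hco : ∀ j : ℕ, ‖D.coeff j‖ < 1 := by
      intro j
      by_cases hj : j < P.natDegree
      · have h1 := congrFun heq ⟨j, hj⟩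
        have h2 : PadicInt.toZMod (D.coeff j) = 0 := by
          rw [hD, coeff_sub, map_sub]
          dsimp only at h1
          rw [h1, sub_self]
        have h3 : D.coeff j ∈ RingHom.ker (PadicInt.toZMod (p := q)) := h2
        rw [PadicInt.ker_toZMod, IsLocalRing.mem_maximalIdeal, PadicInt.mem_nonunits] at h3
        exact h3
      · have h0 : ∀ m : ℕ, (X ^ m %ₘ P).coeff j = 0 := by
          intro m
          apply coeff_eq_zero_of_degree_lt
          refine (degree_modByMonic_lt _ hP).trans_le ?_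
          rw [degree_eq_natDegree hP.ne_zero]
          exact_mod_cast not_lt.1 hj
        rw [hD, coeff_sub, h0, h0, sub_self, norm_zero]
        exact one_pos
    have h1 : D.eval₂ f w = w ^ i' - w ^ i := by
      rw [hD, eval₂_sub, hev, hev]
    have h2 : ‖D.eval₂ f w‖ < 1 := by
      rw [eval₂_eq_sum_range]
      apply R4_sum
      intro j
      rw [norm_mul, norm_pow, hw, one_pow, mul_one, hfn]
      exact hco j
    rw [h1] at h2
    have h3 : w ^ i' - w ^ i = w ^ i * (w ^ (i' - i) - 1) := by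
      rw [mul_sub, mul_one, ← pow_add, Nat.add_sub_cancel' hlt.le]
    rw [h3, norm_mul, norm_pow, hw, one_pow, one_mul] at h2
    exact h2
  rcases lt_or_gt_of_ne hne with h | h
  · exact key i i' h heq
  · exact key i' i h heq.symm

theorem fin_ord {q : ℕ} [Fact q.Prime] (w : PadicAlgCl q) (hw : ‖w‖ = 1) :
    ∃ n : ℕ, 0 < n ∧ ¬ q ∣ n ∧ ‖w ^ n - 1‖ < 1 := by
  have hq : q.Prime := Fact.out
  obtain ⟨n, hn, hwn⟩ := R4_pigeon w hw
  obtain ⟨c, m, hm, rfl⟩ := Nat.exists_eq_pow_mul_and_not_dvd hn.ne' q hq.ne_one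
  refine ⟨m, ?_, hm, ?_⟩
  · rcases Nat.eq_zero_or_pos m with h | h
    · rw [h] at hm
      exact absurd (dvd_zero q) hm
    · exact h
  · apply frob_pow q hq _ c (w ^ m)
    · rw [norm_pow, hw, one_pow]
    · rw [← pow_mul, mul_comm m]
      exact hwn
    · rw [norm_q]
      apply inv_lt_one_of_one_lt₀
      exact_mod_cast hq.one_lt

end KL60
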