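import Pool.Agent.LibKL60.B

/-!
# MP_3c6ab9 (Kurihara), local block, row R5: an element whose n-th power is near 1 is near an n-th root of unity

PLAN
`X^n - 1` splits over the algebraically closed field `L`: `X^n - 1 = ∏ (X - a)` over the multiset
of its roots (`IsAlgClosed.splits`, `Polynomial.Splits.eq_prod_roots` /
`Polynomial.eq_prod_roots_of_monic_of_splits_id`, monic: `Polynomial.monic_X_pow_sub_C`). Evaluate
at `w`: `w^n - 1 = ∏ (w - a)`; if all factors had norm `≥ 1` the product would have norm `≥ 1`
(multiset induction, `norm_mul`). So some root `a` has `‖w - a‖ < 1`, and `a^n = 1`.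
-/

set_option linter.unusedVariables false

namespace KL60

theorem near_root {L : Type*} [NormedField L] [IsAlgClosed L] (n : ℕ) (hn : 0 < n) (w : L)
    (h : ‖w ^ n - 1‖ < 1) : ∃ η : L, η ^ n = 1 ∧ ‖w - η‖ < 1 := by
  have hm : (Polynomial.X ^ n - Polynomial.C (1 : L)).Monic := Polynomial.monic_X_pow_sub_C 1 hn.ne'
  have hsp : (Polynomial.X ^ n - Polynomial.C (1 : L)).Splits := IsAlgClosed.splits _
  have hev := hsp.eval_eq_prod_roots_of_monic hm w
  rw [Polynomial.eval_sub, Polynomial.eval_pow, Polynomial.eval_X, Polynomial.eval_C] at hev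
  rw [hev] at h
  have key : ∀ s : Multiset L, ‖(s.map (fun a ↦ w - a)).prod‖ < 1 → ∃ a ∈ s, ‖w - a‖ < 1 := by
    intro s
    induction s using Multiset.induction with
    | empty => intro h; simp at h
    | cons a s ih =>
      intro h
      rw [Multiset.map_cons, Multiset.prod_cons, norm_mul] at h
      by_cases ha : ‖w - a‖ < 1
      · exact ⟨a, Multiset.mem_cons_self a s, ha⟩
      · push Not at ha
        have h2 : ‖(s.map (fun a ↦ w - a)).prod‖ < 1 := by
          by_contra h3
          push Not at h3
          have : 1 ≤ ‖w - a‖ * ‖(s.map (fun a ↦ w - a)).prod‖ := one_le_mul_of_one_le_of_one_le ha h3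
          linarith
        obtain ⟨b, hb, hb'⟩ := ih h2
        exact ⟨b, Multiset.mem_cons_of_mem hb, hb'⟩
  obtain ⟨a, ha, ha'⟩ := key _ h
  refine ⟨a, ?_, ha'⟩
  have h0 := (Polynomial.mem_roots'.mp ha).2
  rw [Polynomial.IsRoot.def, Polynomial.eval_sub, Polynomial.eval_pow, Polynomial.eval_X,
    Polynomial.eval_C] at h0
  exact sub_eq_zero.mp h0

end KL60
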