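import Pool.Agent.LibKL60.B

/-!
# MP_3c6ab9 (Kurihara), local block, row R6: automorphisms commute on roots of unity

PLAN
Take a primitive `n`-th root of unity `ζ` of `PadicAlgCl q` (algebraically closed of
characteristic `0`: `HasEnoughRootsOfUnity`, `IsAlgClosed` gives `IsCyclotomicExtension`..., e.g.
`HasEnoughRootsOfUnity.exists_primitiveRoot (PadicAlgCl q) n` or
`IsSepClosed`/`IsAlgClosed.exists_aeval_eq_zero` for `cyclotomic n`). `φ ζ = ζ^a`, `σ ζ = ζ^b` for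
natural numbers `a`, `b` (`IsPrimitiveRoot.eq_pow_of_pow_eq_one`), `η = ζ^j`; both sides are `ζ^(a
b j)`.
-/

set_option linter.unusedVariables false

namespace KL60

theorem root_commute {q : ℕ} [Fact q.Prime] (φ σ : PadicAlgCl q ≃ₐ[ℚ_[q]] PadicAlgCl q) (n : ℕ)
    (hn : 0 < n) (η : PadicAlgCl q) (hη : η ^ n = 1) : φ (σ η) = σ (φ η) := by
  have : NeZero ((n : ℕ) : PadicAlgCl q) := ⟨by exact_mod_cast hn.ne'⟩
  have : NeZero n := ⟨hn.ne'⟩
  obtain ⟨ζ, hζ⟩ := HasEnoughRootsOfUnity.exists_primitiveRoot (PadicAlgCl q) n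
  obtain ⟨a, _, ha⟩ := hζ.eq_pow_of_pow_eq_one (ξ := φ ζ) (by rw [← map_pow, hζ.pow_eq_one, map_one])
  obtain ⟨b, _, hb⟩ := hζ.eq_pow_of_pow_eq_one (ξ := σ ζ) (by rw [← map_pow, hζ.pow_eq_one, map_one])
  obtain ⟨j, _, hj⟩ := hζ.eq_pow_of_pow_eq_one hη
  rw [← hj, map_pow, map_pow, map_pow, map_pow, ← ha, ← hb, map_pow, map_pow, ← ha, ← hb]
  ring

end KL60
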