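import Pool.Agent.LibKL60.B
import Pool.Agent.LibKL60.R4
import Pool.Agent.LibKL60.R5
import Pool.Agent.LibKL60.R6

/-!
# MP_3c6ab9 (Kurihara), local block, row R8: Teichmueller; automorphisms which fix the roots of unity of order prime to q are inertia elements; commutators

PLAN
`teich`: `fin_ord` (R4) gives `n`, `near_root` (R5) gives `η` (`PadicAlgCl q` is algebraically
closed).
`fix_iner`: if `‖x‖ < 1` then `‖τ x - x‖ ≤ max ‖τ x‖ ‖x‖ < 1` (`norm_aut`). If `‖x‖ = 1` take `η`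
by `teich`: `τ x - x = τ (x - η) + (η - x)`, `norm_add_lt`, `norm_aut`.
`comm_iner`: `fix_iner`; the commutator fixes every root of unity `η`: apply `root_commute` (R6)
with `σ⁻¹ η`: `φ (σ (φ⁻¹ (σ⁻¹ η))) = σ (φ (φ⁻¹ (σ⁻¹ η))) = η` (the root of unity `φ⁻¹ (σ⁻¹ η)`
satisfies `x^n = 1`).
-/

set_option linter.unusedVariables false

namespace KL60

theorem teich {q : ℕ} [Fact q.Prime] (w : PadicAlgCl q) (hw : ‖w‖ = 1) :
    ∃ (n : ℕ) (η : PadicAlgCl q), 0 < n ∧ ¬ q ∣ n ∧ η ^ n = 1 ∧ ‖w - η‖ < 1 := by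
  obtain ⟨n, hn, hq, h⟩ := fin_ord w hw
  obtain ⟨η, h1, h2⟩ := near_root n hn w h
  exact ⟨n, η, hn, hq, h1, h2⟩

theorem fix_iner {q : ℕ} [Fact q.Prime] (τ : PadicAlgCl q ≃ₐ[ℚ_[q]] PadicAlgCl q)
    (h : ∀ (n : ℕ) (η : PadicAlgCl q), 0 < n → ¬ q ∣ n → η ^ n = 1 → τ η = η) (x : PadicAlgCl q)
    (hx : ‖x‖ ≤ 1) : ‖τ x - x‖ < 1 := by
  rcases lt_or_eq_of_le hx with hlt | heq
  · exact norm_sub_lt (by rwa [norm_aut]) hlt
  · obtain ⟨n, η, hn, hq, h1, h2⟩ := teich x heq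
    have h3 : τ x - x = τ (x - η) + (η - x) := by
      rw [map_sub, h n η hn hq h1]
      ring
    rw [h3]
    refine norm_add_lt (by rwa [norm_aut]) ?_
    rw [norm_sub_rev]
    exact h2

theorem comm_iner {q : ℕ} [Fact q.Prime] (φ σ : PadicAlgCl q ≃ₐ[ℚ_[q]] PadicAlgCl q)
    (x : PadicAlgCl q) (hx : ‖x‖ ≤ 1) : ‖(φ * σ * φ⁻¹ * σ⁻¹) x - x‖ < 1 := by
  refine fix_iner _ ?_ x hx
  intro n η hn _ hη
  change φ (σ (φ⁻¹ (σ⁻¹ η))) = η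
  have hr : (φ⁻¹ (σ⁻¹ η)) ^ n = 1 := by rw [← map_pow, ← map_pow, hη, map_one, map_one]
  rw [root_commute φ σ n hn _ hr]
  have e1 : φ (φ⁻¹ (σ⁻¹ η)) = σ⁻¹ η := AlgEquiv.apply_symm_apply φ _
  rw [e1]
  exact AlgEquiv.apply_symm_apply σ η

end KL60
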