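import Pool.Agent.LibKL60.B

/-!
# MP_3c6ab9 (Kurihara), local block, row R2: roots of unity are distinct modulo the maximal ideal

PLAN
`0 = ζ^n - 1 = (ζ - 1) * ∑ i < n, ζ^i` (`mul_geom_sum` / `geom_sum_mul`). If `ζ - 1 /= 0` the sum
is `0`. But `‖ζ‖ = 1` (`norm_eq_of_sub_lt`), `‖ζ^i - 1‖ < 1` for all `i` (induction: `ζ^(i+1) - 1
= ζ^i (ζ - 1) + (ζ^i - 1)`, `norm_add_lt`),
so `‖∑ (ζ^i - 1)‖ < 1` (`IsUltrametricDist.exists_norm_finset_sum_le` or induction over the range;
for `n = 0` the hypothesis `‖(0 : L)‖ = 1` is absurd), i.e. `‖0 - n‖ < 1`, contradiction to `‖n‖ =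
1`.
-/

set_option linter.unusedVariables false

namespace KL60

theorem root_one {L : Type*} [NormedField L] [IsUltrametricDist L] (n : ℕ) (hn : ‖(n : L)‖ = 1)
    (ζ : L) (hζ : ζ ^ n = 1) (h : ‖ζ - 1‖ < 1) : ζ = 1 := by
  by_contra hne
  have hne' : ζ - 1 ≠ 0 := sub_ne_zero.mpr hne
  have hs : ∑ i ∈ Finset.range n, ζ ^ i = 0 := by
    have := geom_sum_mul ζ n
    rw [hζ, sub_self] at this
    exact (mul_eq_zero.mp this).resolve_right hne'
  have hz : ‖ζ‖ = 1 := by
    have := norm_eq_of_sub_lt (x := ζ) (y := 1) (by simpa using h)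
    simpa using this
  have hp : ∀ i : ℕ, ‖ζ ^ i - 1‖ < 1 := by
    intro i
    induction i with
    | zero => simp
    | succ i ih =>
      have : ζ ^ (i + 1) - 1 = ζ ^ i * (ζ - 1) + (ζ ^ i - 1) := by ring
      rw [this]
      refine norm_add_lt ?_ ih
      rw [norm_mul, norm_pow, hz, one_pow, one_mul]
      exact h
  have hsum : ∀ m : ℕ, ‖∑ i ∈ Finset.range m, (ζ ^ i - 1)‖ < 1 := by
    intro m
    induction m with
    | zero => simp
    | succ m ih =>
      rw [Finset.sum_range_succ]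
      exact norm_add_lt ih (hp m)
  have h1 := hsum n
  rw [Finset.sum_sub_distrib, hs, Finset.sum_const, Finset.card_range, nsmul_eq_mul, mul_one,
    zero_sub, norm_neg, hn] at h1
  exact lt_irrefl _ h1

end KL60
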