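import Pool.Agent.LibKL60.B
import Pool.Agent.LibKL60.R2

/-!
# MP_3c6ab9 (Kurihara), local block, row T10: ninth roots of unity and Q_193

PLAN
Take a primitive 9-th root of unity `ζ₀`. It is not in `ℚ_193`: if `ζ₀ = algebraMap a`, `‖a‖ = 1`,
`a^9 = 1`; the image `b` of `a` in `ZMod 193` (`PadicInt.toZMod`, or use residues) satisfies `b^9
= 1` and `b^192 = 1` (`ZMod.pow_card_sub_one_eq_one`), so `b^3 = 1` (`192 = 9 * 21 + 3`), i.e.
`‖ζ₀^3 - 1‖ < 1`, and `root_one` (R2, `n = 3`, `‖(3 : PadicAlgCl 193)‖ = 1` by `norm_nat_eq`)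
gives `ζ₀^3 = 1`, contradiction. So `gal_move'` gives `φ` with `φ ζ₀ /= ζ₀`. If `ζ` is another
primitive 9-th root of unity with `φ ζ = ζ`, then `ζ₀` is a power of `ζ`
(`IsPrimitiveRoot.eq_pow_of_pow_eq_one`), so `φ ζ₀ = ζ₀`, contradiction.
-/

set_option linter.unusedVariables false

namespace KL60

private theorem cube_of_nine [Fact (Nat.Prime 193)] (a : ℚ_[193]) (ha : a ^ 9 = 1) :
    a ^ 3 = 1 := by
  have hn : ‖a‖ = 1 := by
    have h1 : ‖a‖ ^ 9 = 1 := by rw [← norm_pow, ha, norm_one]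
    exact (pow_eq_one_iff_of_nonneg (norm_nonneg a) (by norm_num)).1 h1
  obtain ⟨z, hz⟩ : ∃ z : ℤ_[193], (z : ℚ_[193]) = a := ⟨⟨a, hn.le⟩, rfl⟩
  have hz9 : z ^ 9 = 1 := by
    apply PadicInt.ext
    rw [PadicInt.coe_pow, hz, ha, PadicInt.coe_one]
  have hb9 : (PadicInt.toZMod z) ^ 9 = 1 := by
    rw [← map_pow, hz9, map_one]
  have hb0 : PadicInt.toZMod z ≠ 0 := by
    intro h
    rw [h] at hb9
    norm_num at hb9
  have hb3 : (PadicInt.toZMod z) ^ 3 = 1 := by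
    have h1 := ZMod.pow_card_sub_one_eq_one hb0
    have h2 : (PadicInt.toZMod z) ^ (193 - 1) =
        ((PadicInt.toZMod z) ^ 9) ^ 21 * (PadicInt.toZMod z) ^ 3 := by ring
    rw [h2, hb9, one_pow, one_mul] at h1
    exact h1
  have hmem : z ^ 3 - 1 ∈ RingHom.ker (PadicInt.toZMod (p := 193)) := by
    rw [RingHom.mem_ker, map_sub, map_pow, hb3, map_one, sub_self]
  rw [PadicInt.ker_toZMod] at hmem
  have hlt : ‖z ^ 3 - 1‖ < 1 := PadicInt.mem_nonunits.1 hmem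
  have hlt' : ‖a ^ 3 - 1‖ < 1 := by
    rw [PadicInt.norm_def, PadicInt.coe_sub, PadicInt.coe_pow, hz, PadicInt.coe_one] at hlt
    exact hlt
  have h3 : ‖((3 : ℕ) : ℚ_[193])‖ = 1 := Padic.norm_natCast_eq_one_iff.2 (by norm_num)
  exact root_one 3 h3 (a ^ 3) (by rw [← pow_mul]; exact ha) hlt'

theorem nine_move [Fact (Nat.Prime 193)] : ∃ φ : PadicAlgCl 193 ≃ₐ[ℚ_[193]] PadicAlgCl 193,
    ∀ ζ : PadicAlgCl 193, IsPrimitiveRoot ζ 9 → φ ζ ≠ ζ := by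
  haveI : NeZero ((9 : ℕ) : PadicAlgCl 193) := ⟨Nat.cast_ne_zero.2 (by norm_num)⟩
  obtain ⟨ζ₀, h₀⟩ := HasEnoughRootsOfUnity.exists_primitiveRoot (PadicAlgCl 193) 9
  obtain ⟨φ, hφ⟩ := gal_move' ζ₀ (fun a ha => by
    have h1 : a ^ 9 = 1 := by
      apply (algebraMap ℚ_[193] (PadicAlgCl 193)).injective
      rw [map_pow, ← ha, map_one, h₀.pow_eq_one]
    have h2 : ζ₀ ^ 3 = 1 := by
      rw [ha, ← map_pow, cube_of_nine a h1, map_one]
    rw [h₀.pow_eq_one_iff_dvd] at h2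
    norm_num at h2)
  refine ⟨φ, fun ζ hζ h => hφ ?_⟩
  obtain ⟨i, -, hi⟩ := hζ.eq_pow_of_pow_eq_one h₀.pow_eq_one
  rw [← hi, map_pow, h]

end KL60
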