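import Pool.Agent.LibKL60.B

/-!
# MP_3c6ab9 (Kurihara), local block, row T1: the square root of -2 in Q_3

PLAN
Hensel (`hensels_lemma` for `F = X^2 + 2 : ℤ_[3][X]` at `a = 1`: `‖F(1)‖ = ‖3‖ < 1 = ‖F'(1)‖^2 =
‖2‖^2`) gives `z : ℤ_[3]` with `z^2 = -2`, so `s = ± z` (`sq_eq_sq_iff_eq_or_eq_neg`).
-/

set_option linter.unusedVariables false

namespace KL60

open Polynomial in
theorem s_base (s : PadicAlgCl 3) (hs : s ^ 2 = -2) :
    ∃ a : ℚ_[3], s = algebraMap ℚ_[3] (PadicAlgCl 3) a := by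
  have h3 : ‖(3 : ℤ_[3])‖ = (3 : ℝ)⁻¹ := by
    have := PadicInt.norm_p (p := 3)
    simpa using this
  have h2 : ‖(2 : ℤ_[3])‖ = 1 := by
    have := PadicInt.norm_natCast_eq_one_iff (p := 3) (n := 2)
    rw [show ((2 : ℕ) : ℤ_[3]) = 2 by norm_num] at this
    rw [this]; decide
  obtain ⟨z, hz, -⟩ := hensels_lemma (p := 3) (R := ℤ) (F := X ^ 2 + C 2) (a := (1 : ℤ_[3])) (by
    have e1 : (aeval (1 : ℤ_[3])) (X ^ 2 + C 2 : ℤ[X]) = 3 := by
      rw [map_add, map_pow, aeval_X, aeval_C]; norm_num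
    have e2 : (aeval (1 : ℤ_[3])) (derivative (X ^ 2 + C 2 : ℤ[X])) = 2 := by
      rw [derivative_add, derivative_C, derivative_X_sq, add_zero, map_mul, aeval_X, aeval_C]; norm_num
    rw [e1, e2, h3, h2]; norm_num)
  have hz2 : z ^ 2 = -2 := by
    have : z ^ 2 + 2 = 0 := by
      rw [map_add, map_pow, aeval_X, aeval_C] at hz
      exact_mod_cast hz
    linear_combination this
  have h4 : (algebraMap ℚ_[3] (PadicAlgCl 3) (z : ℚ_[3])) ^ 2 = s ^ 2 := by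
    rw [hs, ← map_pow]
    have : (z : ℚ_[3]) ^ 2 = -2 := by
      have := congrArg (fun x : ℤ_[3] => (x : ℚ_[3])) hz2
      exact_mod_cast this
    rw [this, map_neg, map_ofNat]
  rcases sq_eq_sq_iff_eq_or_eq_neg.1 h4 with h | h
  · exact ⟨z, h.symm⟩
  · exact ⟨-z, by rw [map_neg, h, neg_neg]⟩

end KL60
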