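import Pool.Agent.LibKL60.B
import Pool.Agent.LibKL60.T1

/-!
# MP_3c6ab9 (Kurihara), local block, row T2: at the place s = 1 above 3, v and -v are conjugate

PLAN
`s = a` in `ℚ_3` (T1), so every automorphism fixes `s`. If `v` is not in `ℚ_3`, `gal_move'` gives
`φ` with `φ v /= v`, and `(φ v)^2 = φ (s - 2) = v^2`, so `φ v = -v`. Suppose `v = algebraMap b`.
`‖v^2 + 1‖ = ‖s - 1‖ < 1`, so `‖b^2 + 1‖ < 1` in `ℚ_[3]`, `‖b‖ ≤ 1`, and the image of `b : ℤ_[3]`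
in `ZMod 3` (`PadicInt.toZMod`) has square `-1`, impossible (`decide`).
-/

set_option linter.unusedVariables false

namespace KL60

private theorem T2_zmod : ∀ y : ZMod 3, y ^ 2 + 1 ≠ 0 := by decide

private theorem T2_padic (b : ℚ_[3]) (h : ‖b ^ 2 + 1‖ < 1) : False := by
  have hb : ‖b‖ ≤ 1 := by
    have h1 : ‖b ^ 2‖ ≤ 1 := by
      have h2 : b ^ 2 = (b ^ 2 + 1) - 1 := by ring
      rw [h2]
      exact norm_sub_le h.le (by rw [norm_one])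
    rw [norm_pow] at h1
    by_contra hlt
    push Not at hlt
    have : 1 < ‖b‖ ^ 2 := one_lt_pow₀ hlt (by norm_num)
    linarith
  obtain ⟨z, hzb⟩ : ∃ z : ℤ_[3], (z : ℚ_[3]) = b := ⟨⟨b, hb⟩, rfl⟩
  have hz : ‖z ^ 2 + 1‖ < 1 := by
    rw [PadicInt.norm_def, PadicInt.coe_add, PadicInt.coe_pow, PadicInt.coe_one, hzb]
    exact h
  have h3 : z ^ 2 + 1 ∈ IsLocalRing.maximalIdeal ℤ_[3] := by
    rw [IsLocalRing.mem_maximalIdeal]
    exact PadicInt.mem_nonunits.2 hz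
  rw [← PadicInt.ker_toZMod, RingHom.mem_ker, map_add, map_pow, map_one] at h3
  exact T2_zmod _ h3

theorem v_move (s v : PadicAlgCl 3) (hs : s ^ 2 = -2) (hv : v ^ 2 = s - 2) (h1 : ‖s - 1‖ < 1) :
    ∃ φ : PadicAlgCl 3 ≃ₐ[ℚ_[3]] PadicAlgCl 3, φ s = s ∧ φ v = -v := by
  obtain ⟨a, ha⟩ := s_base s hs
  have hfix : ∀ φ : PadicAlgCl 3 ≃ₐ[ℚ_[3]] PadicAlgCl 3, φ s = s := fun φ => by
    rw [ha, φ.commutes]
  by_cases hb : ∃ b : ℚ_[3], v = algebraMap ℚ_[3] (PadicAlgCl 3) b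
  · obtain ⟨b, hb⟩ := hb
    exfalso
    have e1 : b ^ 2 + 1 = a - 1 := by
      apply (algebraMap ℚ_[3] (PadicAlgCl 3)).injective
      rw [map_add, map_pow, map_sub, map_one, ← hb, ← ha, hv]
      ring
    have e2 : ‖a - 1‖ < 1 := by
      have e3 : ‖algebraMap ℚ_[3] (PadicAlgCl 3) (a - 1)‖ = ‖a - 1‖ := PadicAlgCl.norm_extends 3 (a - 1)
      rw [← e3, map_sub, map_one, ← ha]
      exact h1
    rw [← e1] at e2
    exact T2_padic b e2
  · push Not at hb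
    obtain ⟨φ, hφ⟩ := gal_move' v hb
    refine ⟨φ, hfix φ, ?_⟩
    have e1 : φ v ^ 2 = v ^ 2 := by
      rw [← map_pow, hv, map_sub, hfix φ, map_ofNat]
    exact (sq_eq_sq_iff_eq_or_eq_neg.1 e1).resolve_left hφ

end KL60
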