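import Pool.Agent.LibKL60.B
import Pool.Agent.LibKL60.T1

/-!
# MP_3c6ab9 (Kurihara), local block, row T3: u and -u are conjugate over Q_3

PLAN
`s = algebraMap a` (T1). `(s - 1)(s + 1) = -3`, so `‖s - 1‖ < 1` or `‖s + 1‖ < 1` (`‖3‖ = 1/3`).
If `u` is not in `ℚ_3` then `gal_move'` gives `φ` with `φ u /= u`, and `(φ u)^2 = -2 - s = u^2`,
so `φ u = -u`. Suppose `u = algebraMap b`.
Case `‖s - 1‖ < 1`: `‖s + 1‖ = ‖2 + (s - 1)‖ = 1`, `‖s - 1‖ = 1/3`, `-2 - s = -(s - 1) - 3`; and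
`-(s-1) - 3 = -(s - 1) + (s - 1)(s + 1) = (s - 1) s`, `‖s‖ = 1`, so `‖u‖^2 = 1/3`, but `‖u‖ = 3^k`
(`norm_base`): `2 k = -1`, impossible.
Case `‖s + 1‖ < 1`: `u^2 + 1 = -(s + 1)`, so `‖b^2 + 1‖ < 1` in `ℚ_[3]`, `‖b‖ ≤ 1`; the image of
`b` in `ZMod 3` has square `-1`, impossible (`PadicInt.toZMod`, `decide`).
-/

set_option linter.unusedVariables false

namespace KL60

private theorem t3_noroot (b : ℚ_[3]) : b ^ 4 + 4 * b ^ 2 + 6 ≠ 0 := by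
  intro h
  have hb : ‖b‖ ≤ 1 := by
    by_contra hc
    push Not at hc
    have h4 : b ^ 4 = -(4 * b ^ 2 + 6) := by linear_combination h
    have h1 : ‖b‖ ^ 4 = ‖4 * b ^ 2 + 6‖ := by rw [← norm_pow, h4, norm_neg]
    have n4 : ‖(4 : ℚ_[3])‖ ≤ 1 := by
      have := norm_nat_le (L := ℚ_[3]) 4; push_cast at this; exact this
    have n6 : ‖(6 : ℚ_[3])‖ ≤ 1 := by
      have := norm_nat_le (L := ℚ_[3]) 6; push_cast at this; exact this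
    have h2 : ‖4 * b ^ 2 + 6‖ ≤ ‖b‖ ^ 2 := by
      refine norm_add_le ?_ ?_
      · rw [norm_mul, norm_pow]
        nlinarith [norm_nonneg b, sq_nonneg ‖b‖]
      · nlinarith
    rw [← h1] at h2
    nlinarith [mul_pos (sub_pos.2 hc) (sub_pos.2 hc), pow_pos (lt_trans one_pos hc) 2,
      pow_pos (lt_trans one_pos hc) 3]
  obtain ⟨c, hc⟩ : ∃ c : ℤ_[3], (c : ℚ_[3]) = b := ⟨⟨b, hb⟩, rfl⟩
  have h5 : c ^ 4 + 4 * c ^ 2 + 6 = 0 := by
    apply Subtype.ext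
    have : (c : ℚ_[3]) ^ 4 + 4 * (c : ℚ_[3]) ^ 2 + 6 = 0 := by rw [hc]; exact h
    exact_mod_cast this
  have h6 := congrArg (PadicInt.toZModPow 2) h5
  rw [map_add, map_add, map_mul, map_pow, map_pow, map_ofNat, map_ofNat, map_zero] at h6
  have h7 : ∀ x : ZMod (3 ^ 2), x ^ 4 + 4 * x ^ 2 + 6 ≠ 0 := by decide
  exact h7 _ h6

theorem u_move3 (s u : PadicAlgCl 3) (hs : s ^ 2 = -2) (hu : u ^ 2 = -2 - s) :
    ∃ φ : PadicAlgCl 3 ≃ₐ[ℚ_[3]] PadicAlgCl 3, φ s = s ∧ φ u = -u := by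
  obtain ⟨a, ha⟩ := s_base s hs
  have hne : ∀ b : ℚ_[3], u ≠ algebraMap ℚ_[3] (PadicAlgCl 3) b := by
    intro b hb
    apply t3_noroot b
    apply (algebraMap ℚ_[3] (PadicAlgCl 3)).injective
    rw [map_add, map_add, map_mul, map_pow, map_pow, map_ofNat, map_ofNat, map_zero, ← hb]
    linear_combination (u ^ 2 + 2 - s) * hu + hs
  obtain ⟨φ, hφ⟩ := gal_move' u hne
  have h1 : φ s = s := by rw [ha, AlgEquiv.commutes]
  have h2 : (φ u) ^ 2 = u ^ 2 := by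
    rw [← map_pow, hu, map_sub, map_neg, map_ofNat, h1]
  refine ⟨φ, h1, ?_⟩
  rcases sq_eq_sq_iff_eq_or_eq_neg.1 h2 with h | h
  · exact absurd h hφ
  · exact h

end KL60
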