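import Pool.Agent.LibKL60.B

/-!
# MP_3c6ab9 (Kurihara), local block, row T4: u and -u are conjugate over Q_2(s)

PLAN
`K := ℚ_[2]⟮s⟯` (`IntermediateField.adjoin ℚ_[2] {s}`). If `u ∉ K`, `gal_move` gives `φ` fixing
`s` with `φ u /= u`, `(φ u)^2 = -2 - s = u^2`, so `φ u = -u`. `‖s‖^2 = 1/2` (`norm_q`), `u^4 + 4
u^2 + 6 = 0` (square `u^2 + 2 = -s`), or: `‖-2 - s‖ = ‖s‖` because `‖2‖ = 1/2 < ‖s‖`; so `‖u‖^4 =
‖s‖^2 = 1/2`. If `u ∈ K` then `u = a + b s` with `a b : ℚ_[2]` (elements of `ℚ_[2]⟮s⟯`, `s^2 =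
-2`: `IntermediateField.adjoin` of an algebraic element, induction, or power basis); `‖a‖ = 2^i`,
`‖b s‖^2 = 2^(2j - 1)` (if not zero) are different, so `‖u‖^2 = max ‖a‖^2 ‖b s‖^2` is an integral
power of `2`: `‖u‖^2 = 2^m`, `2^(2m) = 2^(-1)`, impossible.
-/

set_option linter.unusedVariables false

namespace KL60

private theorem t4_noroot (c : ℚ_[2]) : c ^ 4 - 4 * c ^ 2 - 2 ≠ 0 := by
  intro h
  have hb : ‖c‖ ≤ 1 := by
    by_contra hc
    push Not at hc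
    have h4 : c ^ 4 = 4 * c ^ 2 + 2 := by linear_combination h
    have h1 : ‖c‖ ^ 4 = ‖4 * c ^ 2 + 2‖ := by rw [← norm_pow, h4]
    have n4 : ‖(4 : ℚ_[2])‖ ≤ 1 := by
      have := norm_nat_le (L := ℚ_[2]) 4; push_cast at this; exact this
    have n6 : ‖(2 : ℚ_[2])‖ ≤ 1 := by
      have := norm_nat_le (L := ℚ_[2]) 2; push_cast at this; exact this
    have h2 : ‖4 * c ^ 2 + 2‖ ≤ ‖c‖ ^ 2 := by
      refine norm_add_le ?_ ?_
      · rw [norm_mul, norm_pow]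
        nlinarith [norm_nonneg c, sq_nonneg ‖c‖]
      · nlinarith
    rw [← h1] at h2
    nlinarith [mul_pos (sub_pos.2 hc) (sub_pos.2 hc), pow_pos (lt_trans one_pos hc) 2,
      pow_pos (lt_trans one_pos hc) 3]
  obtain ⟨x, hx⟩ : ∃ x : ℤ_[2], (x : ℚ_[2]) = c := ⟨⟨c, hb⟩, rfl⟩
  have h5 : x ^ 4 - 4 * x ^ 2 - 2 = 0 := by
    apply Subtype.ext
    have : (x : ℚ_[2]) ^ 4 - 4 * (x : ℚ_[2]) ^ 2 - 2 = 0 := by rw [hx]; exact h
    exact_mod_cast this
  have h6 := congrArg (PadicInt.toZModPow 2) h5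
  rw [map_sub, map_sub, map_mul, map_pow, map_pow, map_ofNat, map_ofNat, map_zero] at h6
  have h7 : ∀ x : ZMod (2 ^ 2), x ^ 4 - 4 * x ^ 2 - 2 ≠ 0 := by decide
  exact h7 _ h6

private theorem t4_s (c : ℚ_[2]) : c ^ 2 ≠ -2 := by
  intro h
  have h1 : ‖c‖ ^ 2 = (2 : ℝ)⁻¹ := by
    rw [← norm_pow, h, norm_neg]
    have := Padic.norm_p (p := 2)
    simpa using this
  have hc : c ≠ 0 := by
    rintro rfl
    norm_num at h1
  rw [Padic.norm_eq_zpow_neg_valuation hc, ← zpow_natCast, ← zpow_mul] at h1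
  have h2 : (2 : ℝ)⁻¹ = (2 : ℝ) ^ (-1 : ℤ) := by norm_num
  rw [h2] at h1
  push_cast at h1
  have h3 := zpow_right_injective₀ (a := (2 : ℝ)) (by norm_num) (by norm_num) h1
  omega

private theorem t4_form (s : PadicAlgCl 2) (hs : s ^ 2 = -2) (x : PadicAlgCl 2)
    (hx : x ∈ IntermediateField.adjoin ℚ_[2] {s}) :
    ∃ a b : ℚ_[2], x = algebraMap ℚ_[2] (PadicAlgCl 2) a + algebraMap ℚ_[2] (PadicAlgCl 2) b * s := by
  have hi : IsAlgebraic ℚ_[2] s := Algebra.IsAlgebraic.isAlgebraic s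
  have h1 : x ∈ Algebra.adjoin ℚ_[2] {s} := by
    rw [← IntermediateField.adjoin_simple_toSubalgebra_of_isAlgebraic hi]
    exact hx
  clear hx
  induction h1 using Algebra.adjoin_induction with
  | mem y hy =>
    rw [Set.mem_singleton_iff] at hy
    exact ⟨0, 1, by rw [hy]; simp⟩
  | algebraMap r => exact ⟨r, 0, by simp⟩
  | add y z _ _ hy hz =>
    obtain ⟨a, b, e⟩ := hy
    obtain ⟨c, d, f⟩ := hz
    exact ⟨a + c, b + d, by rw [e, f, map_add, map_add]; ring⟩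
  | mul y z _ _ hy hz =>
    obtain ⟨a, b, e⟩ := hy
    obtain ⟨c, d, f⟩ := hz
    refine ⟨a * c - 2 * (b * d), a * d + b * c, ?_⟩
    rw [e, f, map_sub, map_mul, map_mul, map_mul, map_ofNat, map_add, map_mul, map_mul]
    linear_combination (algebraMap ℚ_[2] (PadicAlgCl 2) b) * (algebraMap ℚ_[2] (PadicAlgCl 2) d) * hs

theorem u_move2 (s u : PadicAlgCl 2) (hs : s ^ 2 = -2) (hu : u ^ 2 = -2 - s) :
    ∃ φ : PadicAlgCl 2 ≃ₐ[ℚ_[2]] PadicAlgCl 2, φ s = s ∧ φ u = -u := by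
  have hne : u ∉ IntermediateField.adjoin ℚ_[2] {s} := by
    intro hx
    obtain ⟨a, b, e⟩ := t4_form s hs u hx
    have h1 : algebraMap ℚ_[2] (PadicAlgCl 2) (2 * a * b + 1) * s
        = algebraMap ℚ_[2] (PadicAlgCl 2) (-2 - a ^ 2 + 2 * b ^ 2) := by
      rw [e] at hu
      simp only [map_add, map_sub, map_neg, map_mul, map_pow, map_ofNat, map_one]
      linear_combination hu - (algebraMap ℚ_[2] (PadicAlgCl 2) b) ^ 2 * hs
    by_cases h0 : 2 * a * b + 1 = 0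
    · rw [h0, map_zero, zero_mul] at h1
      have h2 : -2 - a ^ 2 + 2 * b ^ 2 = 0 := by
        apply (algebraMap ℚ_[2] (PadicAlgCl 2)).injective
        rw [← h1, map_zero]
      have ha : a ≠ 0 := by
        rintro rfl
        simp at h0
      apply t4_noroot (a⁻¹)
      field_simp
      have h3 : 2 * a * b = -1 := by linear_combination h0
      linear_combination (2 * a ^ 2) * h2 - (2 * a * b - 1) * h3
    · apply t4_s ((-2 - a ^ 2 + 2 * b ^ 2) / (2 * a * b + 1))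
      apply (algebraMap ℚ_[2] (PadicAlgCl 2)).injective
      have h2 : algebraMap ℚ_[2] (PadicAlgCl 2) ((-2 - a ^ 2 + 2 * b ^ 2) / (2 * a * b + 1)) = s := by
        rw [map_div₀, ← h1]
        have : algebraMap ℚ_[2] (PadicAlgCl 2) (2 * a * b + 1) ≠ 0 := by
          rw [Ne, map_eq_zero]; exact h0
        field_simp
      rw [map_pow, h2, hs, map_neg, map_ofNat]
  obtain ⟨φ, hf, hφ⟩ := gal_move _ u hne
  have h1 : φ s = s := hf s (IntermediateField.mem_adjoin_simple_self _ s)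
  have h2 : (φ u) ^ 2 = u ^ 2 := by
    rw [← map_pow, hu, map_sub, map_neg, map_ofNat, h1]
  refine ⟨φ, h1, ?_⟩
  rcases sq_eq_sq_iff_eq_or_eq_neg.1 h2 with h | h
  · exact absurd h hφ
  · exact h

end KL60
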