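import Pool.Agent.LibKL60.B

/-!
# MP_3c6ab9 (Kurihara), local block, row T8: cube roots near 1 at the place 3

PLAN
Let `ω` be a primitive cube root of unity of `PadicAlgCl 3`. `(1 - ω)(1 - ω^2) = 3` and `1 - ω^2 =
(1 - ω)(1 + ω)`, `‖1 + ω‖ = ‖-ω^2‖ = 1`, so `‖1 - ω‖^2 = ‖1 - ω^2‖^2 = 1/3` (`norm_q`). Take a
cube root `w₀` of `1 + y` and let `w` be one of `w₀, ω w₀, ω^2 w₀` with `‖w - 1‖` minimal. `(w -
1)(w - ω)(w - ω^2) = w^3 - 1 = y`, and `‖w - ω^j‖ = ‖ω^(-j) w - 1‖ ≥ ‖w - 1‖`. So `‖w - 1‖^3 ≤ ‖y‖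
≤ 1/9`, hence `‖w - 1‖^6 ≤ 1/81 < 1/27` and `‖w - 1‖^2 < 1/3`; `‖w‖ = 1`. If `τ y = y` then `(τ
w)^3 = w^3`, `τ w = ω^j w` with `j ∈ {0, 1, 2}`; if `j /= 0` then `‖τ w - w‖ = ‖ω^j - 1‖`, its
square is `1/3`, but `‖τ w - w‖ ≤ max ‖τ (w - 1)‖ ‖w - 1‖ = ‖w - 1‖` (`norm_aut`), contradiction.
-/

set_option linter.unusedVariables false

namespace KL60

private theorem T8_norm (ζ : PadicAlgCl 3) (h : ζ ^ 2 + ζ + 1 = 0) : ‖ζ - 1‖ ^ 2 = 1 / 3 := by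
  have h3 : ζ ^ 3 = 1 := by linear_combination (ζ - 1) * h
  have hn : ‖ζ‖ = 1 := by
    have h4 : ‖ζ‖ ^ 3 = 1 := by rw [← norm_pow, h3, norm_one]
    exact (pow_eq_one_iff_of_nonneg (norm_nonneg _) (by norm_num)).mp h4
  have h1 : ‖1 + ζ‖ = 1 := by
    have : 1 + ζ = -ζ ^ 2 := by linear_combination h
    rw [this, norm_neg, norm_pow, hn, one_pow]
  have h2 : (ζ - 1) * (ζ - 1) * (1 + ζ) = ((3 : ℕ) : PadicAlgCl 3) := by
    push_cast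
    linear_combination (ζ - 2) * h
  have h5 := congrArg norm h2
  rw [norm_mul, norm_mul, h1, mul_one, norm_q] at h5
  rw [sq, h5]
  norm_num

theorem cube3 (y : PadicAlgCl 3) (hy : ‖y‖ ≤ 1 / 9) :
    ∃ w : PadicAlgCl 3, w ^ 3 = 1 + y ∧
      ∀ τ : PadicAlgCl 3 ≃ₐ[ℚ_[3]] PadicAlgCl 3, τ y = y → τ w = w := by
  obtain ⟨d, hd⟩ := IsAlgClosed.exists_pow_nat_eq (-3 : PadicAlgCl 3) (n := 2) (by norm_num)
  obtain ⟨ω, hω⟩ : ∃ ω : PadicAlgCl 3, ω ^ 2 + ω + 1 = 0 := by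
    refine ⟨(-1 + d) / 2, ?_⟩
    field_simp
    linear_combination hd
  have hω3 : ω ^ 3 = 1 := by linear_combination (ω - 1) * hω
  have hωn : ‖ω‖ = 1 := by
    have h4 : ‖ω‖ ^ 3 = 1 := by rw [← norm_pow, hω3, norm_one]
    exact (pow_eq_one_iff_of_nonneg (norm_nonneg _) (by norm_num)).mp h4
  obtain ⟨w0, hw0⟩ := IsAlgClosed.exists_pow_nat_eq (1 + y) (n := 3) (by norm_num)
  have hprod : (w0 - 1) * (w0 - ω) * (w0 - ω ^ 2) = y := by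
    have e : (w0 - 1) * (w0 - ω) * (w0 - ω ^ 2) = w0 ^ 3 - 1 := by
      linear_combination (-w0 ^ 2 + w0) * hω + (w0 - 1) * hω3
    rw [e, hw0]
    ring
  have hle : ‖w0 - 1‖ * ‖w0 - ω‖ * ‖w0 - ω ^ 2‖ ≤ 1 / 9 := by
    rw [← norm_mul, ← norm_mul, hprod]
    exact hy
  -- one of the three cube roots is near 1
  obtain ⟨w, hw, hw1⟩ : ∃ w : PadicAlgCl 3, w ^ 3 = 1 + y ∧ ‖w - 1‖ ^ 3 ≤ 1 / 9 := by
    by_contra hcon
    push Not at hcon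
    have h1 := hcon w0 hw0
    have h2 := hcon (ω ^ 2 * w0) (by rw [mul_pow, hw0, ← pow_mul, mul_comm 2 3, pow_mul, hω3]; ring)
    have h3 := hcon (ω * w0) (by rw [mul_pow, hw0, hω3]; ring)
    have e2 : ‖ω ^ 2 * w0 - 1‖ = ‖w0 - ω‖ := by
      have : ω ^ 2 * w0 - 1 = ω ^ 2 * (w0 - ω) := by linear_combination hω3
      rw [this, norm_mul, norm_pow, hωn, one_pow, one_mul]
    have e3 : ‖ω * w0 - 1‖ = ‖w0 - ω ^ 2‖ := by
      have : ω * w0 - 1 = ω * (w0 - ω ^ 2) := by linear_combination hω3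
      rw [this, norm_mul, hωn, one_mul]
    rw [e2] at h2
    rw [e3] at h3
    have p1 := norm_nonneg (w0 - 1)
    have p2 := norm_nonneg (w0 - ω)
    have p3 := norm_nonneg (w0 - ω ^ 2)
    have h4 : (‖w0 - 1‖ * ‖w0 - ω‖ * ‖w0 - ω ^ 2‖) ^ 3 ≤ (1 / 9) ^ 3 :=
      pow_le_pow_left₀ (by positivity) hle 3
    have h5 : (1 / 9 : ℝ) ^ 3 < ‖w0 - 1‖ ^ 3 * ‖w0 - ω‖ ^ 3 * ‖w0 - ω ^ 2‖ ^ 3 := by
      calc (1 / 9 : ℝ) ^ 3 = (1 / 9) * (1 / 9) * (1 / 9) := by ring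
        _ < ‖w0 - 1‖ ^ 3 * ‖w0 - ω‖ ^ 3 * ‖w0 - ω ^ 2‖ ^ 3 := by gcongr
    rw [← mul_pow, ← mul_pow] at h5
    exact absurd h4 (not_le.mpr h5)
  refine ⟨w, hw, fun τ hτ => ?_⟩
  have hlt : ‖w - 1‖ < 1 := by
    by_contra hge
    push Not at hge
    have := one_le_pow₀ (n := 3) hge
    linarith
  have hwn : ‖w‖ = 1 := by
    have := norm_eq_of_sub_lt (x := w) (y := 1) (by rw [norm_one]; exact hlt)
    rw [this, norm_one]
  have hw0' : w ≠ 0 := by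
    intro h0
    rw [h0, norm_zero] at hwn
    exact zero_ne_one hwn
  have hζ3 : (τ w / w) ^ 3 = 1 := by
    rw [div_pow, ← map_pow, hw, map_add, map_one, hτ, ← hw]
    exact div_self (pow_ne_zero 3 hw0')
  have hτw : τ w = (τ w / w) * w := (div_mul_cancel₀ _ hw0').symm
  by_cases h1 : τ w / w = 1
  · rw [hτw, h1, one_mul]
  · exfalso
    have hq : (τ w / w) ^ 2 + (τ w / w) + 1 = 0 := by
      have : (τ w / w - 1) * ((τ w / w) ^ 2 + (τ w / w) + 1) = 0 := by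
        linear_combination hζ3
      rcases mul_eq_zero.mp this with h | h
      · exact absurd (sub_eq_zero.mp h) h1
      · exact h
    have h2 := T8_norm _ hq
    have h3 : ‖τ w / w - 1‖ ≤ ‖w - 1‖ := by
      have e : τ w - w = (τ w / w - 1) * w := by
        rw [sub_mul, one_mul, ← hτw]
      have e2 : ‖τ w - w‖ = ‖τ w / w - 1‖ := by
        rw [e, norm_mul, hwn, mul_one]
      rw [← e2]
      have e3 : τ w - w = τ (w - 1) - (w - 1) := by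
        rw [map_sub, map_one]
        ring
      rw [e3]
      exact norm_sub_le (by rw [norm_aut]) le_rfl
    have h4 : (1 / 3 : ℝ) ≤ ‖w - 1‖ ^ 2 := by
      rw [← h2]
      exact pow_le_pow_left₀ (norm_nonneg _) h3 2
    have h5 : (1 / 3 : ℝ) ^ 3 ≤ (‖w - 1‖ ^ 2) ^ 3 := pow_le_pow_left₀ (by norm_num) h4 3
    have h6 : (‖w - 1‖ ^ 3) ^ 2 ≤ (1 / 9 : ℝ) ^ 2 :=
      pow_le_pow_left₀ (pow_nonneg (norm_nonneg _) 3) hw1 2
    rw [← pow_mul] at h5 h6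
    norm_num at h5 h6
    linarith

end KL60
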