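import Pool.Agent.LibKL60.B

/-!
# MP_3c6ab9 (Kurihara), local block, row T9: 1 - zeta_l is a uniformiser

PLAN
`∏ 0 < j < l, (1 - ζ^j) = l` (`cyclotomic l` at `1`: `Polynomial.eval_one_cyclotomic_prime`, with
`Polynomial.cyclotomic_eq_prod_X_sub_primitiveRoots` or `IsPrimitiveRoot.X_pow_sub_one_eq_prod`;
or `IsPrimitiveRoot.prod_one_sub_pow_eq_order`). For `0 < j < l` `‖1 - ζ^j‖ = ‖1 - ζ‖`: `1 - ζ^j =
(1 - ζ)(1 + ... + ζ^(j-1))`, so `‖1 - ζ^j‖ ≤ ‖1 - ζ‖` for every `j` and every `l`-th root of unity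
`ζ`; conversely `ζ = (ζ^j)^i` with `i j = 1` modulo `l`. So `‖1 - ζ‖^(l - 1) = ‖l‖ = 1/l`
(`norm_q`).
-/

set_option linter.unusedVariables false

namespace KL60

private theorem T9_le {l : ℕ} [Fact l.Prime] (ξ : PadicAlgCl l) (hξ : ξ ^ l = 1) (j : ℕ) :
    ‖1 - ξ ^ j‖ ≤ ‖1 - ξ‖ := by
  have hl : l ≠ 0 := (Fact.out : l.Prime).ne_zero
  have hn : ‖ξ‖ = 1 := by
    have h1 : ‖ξ‖ ^ l = 1 := by rw [← norm_pow, hξ, norm_one]
    exact (pow_eq_one_iff_of_nonneg (norm_nonneg _) hl).1 h1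
  induction j with
  | zero => simp
  | succ j ih =>
    have h2 : 1 - ξ ^ (j + 1) = (1 - ξ ^ j) + ξ ^ j * (1 - ξ) := by ring
    rw [h2]
    refine norm_add_le ih ?_
    rw [norm_mul, norm_pow, hn, one_pow, one_mul]

theorem lam_norm {l : ℕ} [Fact l.Prime] (ζ : PadicAlgCl l) (hζ : IsPrimitiveRoot ζ l) :
    ‖1 - ζ‖ ^ (l - 1) = 1 / (l : ℝ) := by
  have hp : l.Prime := Fact.out
  have hl : l - 1 + 1 = l := Nat.sub_add_cancel hp.one_le
  have h1 : ∏ k ∈ Finset.range (l - 1), (1 - ζ ^ (k + 1)) = (l : PadicAlgCl l) := by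
    have h2 := IsPrimitiveRoot.prod_one_sub_pow_eq_order (n := l - 1) (μ := ζ) (by rw [hl]; exact hζ)
    rw [h2]
    have h3 : ((l - 1 + 1 : ℕ) : PadicAlgCl l) = (l : PadicAlgCl l) := by rw [hl]
    rw [← h3]
    push_cast
    ring
  have h4 : ∀ k ∈ Finset.range (l - 1), ‖1 - ζ ^ (k + 1)‖ = ‖1 - ζ‖ := by
    intro k hk
    rw [Finset.mem_range] at hk
    refine le_antisymm (T9_le ζ hζ.pow_eq_one (k + 1)) ?_
    have hc : Nat.Coprime (k + 1) l := by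
      rw [Nat.coprime_comm]
      refine (Nat.Prime.coprime_iff_not_dvd hp).2 fun h => ?_
      have := Nat.le_of_dvd (Nat.succ_pos k) h
      omega
    obtain ⟨i, hi⟩ := Nat.exists_mul_mod_eq_one_of_coprime hc hp.one_lt
    have h5 : (ζ ^ (k + 1)) ^ i = ζ := by
      rw [← pow_mul]
      calc ζ ^ ((k + 1) * i) = ζ ^ ((k + 1) * i % l) := pow_eq_pow_mod _ hζ.pow_eq_one
        _ = ζ := by rw [hi.2, pow_one]
    have h6 := T9_le (ζ ^ (k + 1)) (by rw [← pow_mul, mul_comm, pow_mul, hζ.pow_eq_one, one_pow]) i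
    rw [h5] at h6
    exact h6
  have h7 : ‖∏ k ∈ Finset.range (l - 1), (1 - ζ ^ (k + 1))‖ = ‖1 - ζ‖ ^ (l - 1) := by
    rw [norm_prod, Finset.prod_congr rfl h4, Finset.prod_const, Finset.card_range]
  rw [← h7, h1, norm_q, one_div]

end KL60
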