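import Pool.Agent.LibKL60.B
import Pool.Agent.LibKL60.R2
import Pool.Agent.LibKL60.R4
import Pool.Agent.LibKL60.R5

/-!
# MP_3c6ab9 (Kurihara), local block, row U1: an automorphism which fixes the 3-power roots of unity fixes the cube roots of fixed units (q /= 3)

PLAN
`w /= 0`. `ζ := τ w / w` satisfies `ζ^3 = 1` (from `h`). `fin_ord` (R4): `n > 0`, `¬ q ∣ n`, `‖w^n
- 1‖ < 1`. Write `n = 3^b * r`, `¬ 3 ∣ r` (`Nat.exists_eq_pow_mul_and_not_dvd`), `x = w^r`: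
`‖x^(3^b) - 1‖ < 1`, so `near_root` (R5) gives `η` with `η^(3^b) = 1`, `‖x - η‖ < 1`. `τ η = η` by
`hτ`. `‖τ x - x‖ ≤ max ‖τ (x - η)‖ ‖η - x‖ < 1` (`norm_aut`). But `τ x = ζ^r x`, `‖x‖ = 1`, so
`‖ζ^r - 1‖ < 1`; `(ζ^r)^3 = 1` and `‖(3 : PadicAlgCl q)‖ = 1` (`norm_nat_eq`, `q /= 3` primes), so
`ζ^r = 1` by `root_one` (R2). Since `3` does not divide `r` and `ζ^3 = 1`, `ζ^r = 1`: `ζ = 1`
(`orderOf` or Bezout: `r = 3 m + 1` or `r = 3 m + 2`, then `ζ = 1` or `ζ^2 = 1`, `ζ = ζ^3 = 1`).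
-/

set_option linter.unusedVariables false

namespace KL60

theorem unit_fix {q : ℕ} [Fact q.Prime] (h3 : q ≠ 3) (τ : PadicAlgCl q ≃ₐ[ℚ_[q]] PadicAlgCl q)
    (hτ : ∀ (k : ℕ) (ζ : PadicAlgCl q), ζ ^ 3 ^ k = 1 → τ ζ = ζ) (w : PadicAlgCl q) (hw : ‖w‖ = 1)
    (h : τ (w ^ 3) = w ^ 3) : τ w = w := by
  have hw0 : w ≠ 0 := by
    intro h0
    rw [h0, norm_zero] at hw
    exact zero_ne_one hw
  have hζ3 : (τ w / w) ^ 3 = 1 := by
    rw [div_pow, ← map_pow, h]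
    exact div_self (pow_ne_zero 3 hw0)
  have hτw : τ w = (τ w / w) * w := (div_mul_cancel₀ _ hw0).symm
  obtain ⟨n, hn0, hqn, hn⟩ := fin_ord w hw
  obtain ⟨b, r, hr, hnr⟩ := Nat.exists_eq_pow_mul_and_not_dvd hn0.ne' 3 (by norm_num)
  have hx1 : ‖(w ^ r) ^ 3 ^ b - 1‖ < 1 := by
    rw [← pow_mul, mul_comm r, ← hnr]
    exact hn
  obtain ⟨η, hη, hxη⟩ := near_root (3 ^ b) (pow_pos (by norm_num) b) (w ^ r) hx1
  have hτη : τ η = η := hτ b η hη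
  have h1 : ‖τ (w ^ r) - η‖ < 1 := by
    have h2 : τ (w ^ r) - η = τ (w ^ r - η) := by
      rw [map_sub, hτη]
    rw [h2, norm_aut]
    exact hxη
  have h2 : ‖τ (w ^ r) - w ^ r‖ < 1 := by
    have h3 : τ (w ^ r) - w ^ r = (τ (w ^ r) - η) - (w ^ r - η) := by ring
    rw [h3]
    exact norm_sub_lt h1 hxη
  have h4 : ‖(τ w / w) ^ r - 1‖ < 1 := by
    have h5 : τ (w ^ r) - w ^ r = ((τ w / w) ^ r - 1) * w ^ r := by
      rw [sub_mul, one_mul, ← mul_pow, ← hτw, map_pow]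
    rw [h5, norm_mul, norm_pow, hw, one_pow, mul_one] at h2
    exact h2
  have h33 : ‖((3 : ℕ) : PadicAlgCl q)‖ = 1 := by
    apply norm_nat_eq
    intro hd
    exact h3 ((Nat.prime_dvd_prime_iff_eq Fact.out Nat.prime_three).mp hd)
  have h6 : (τ w / w) ^ r = 1 := by
    apply root_one 3 h33 _ _ h4
    rw [← pow_mul, mul_comm, pow_mul, hζ3, one_pow]
  have h7 : τ w / w = 1 := by
    have hcop : Nat.gcd 3 r = 1 := (Nat.Prime.coprime_iff_not_dvd Nat.prime_three).mpr hr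
    have := pow_gcd_eq_one.mpr ⟨hζ3, h6⟩
    rw [hcop, pow_one] at this
    exact this
  rw [hτw, h7, one_mul]

end KL60
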