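import Pool.Agent.LibKL60.B

/-!
# MP_3c6ab9 (Kurihara), local block, row V1: integral Vandermonde system

PLAN
Lagrange instead of determinants: fix `i` and put `P = ∏ k ∈ univ.erase i, (X - C (c k))`, degree
`d - 1 < d`, so `P = ∑ j < d, p_j X^j` and for every `k` `P(c_k) = ∑ j, p_j c_k^j`. All
coefficients `p_j` have norm `≤ 1` (induction over the finset: the coefficients of `(X - C c) * Q`
are `q_(j-1) - c q_j`; or work over the subring of elements of norm `≤ 1`). Then
`v_i P(c_i) = ∑ k, v_k P(c_k)` (the other terms vanish) `= ∑ j, p_j (∑ k, v_k c_k^j)`, of norm `<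
M` (note `0 < M` because `‖...‖ < M` for some `j`, as `d > 0`), and `‖P(c_i)‖ = ∏ ‖c_i - c_k‖ = 1`
(`norm_prod`).
-/

set_option linter.unusedVariables false

namespace KL60

open Polynomial in
private theorem V1_coeff {L : Type*} [NormedField L] [IsUltrametricDist L] {ι : Type*} [DecidableEq ι]
    (c : ι → L) (hc : ∀ i, ‖c i‖ ≤ 1) (s : Finset ι) :
    ∀ j, ‖(∏ k ∈ s, (X - C (c k)) : L[X]).coeff j‖ ≤ 1 := by
  induction s using Finset.induction_on with
  | empty =>
    intro j
    rw [Finset.prod_empty, coeff_one]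
    split_ifs <;> simp
  | insert a s ha ih =>
    intro j
    rw [Finset.prod_insert ha, sub_mul, coeff_sub, coeff_C_mul, sub_eq_add_neg]
    refine (IsUltrametricDist.norm_add_le_max _ _).trans (max_le ?_ ?_)
    · cases j with
      | zero => simp
      | succ j =>
        rw [coeff_X_mul]
        exact ih j
    · rw [norm_neg, norm_mul]
      exact mul_le_one₀ (hc a) (norm_nonneg _) (ih j)

theorem vander {L : Type*} [NormedField L] [IsUltrametricDist L] {d : ℕ} (c v : Fin d → L)
    (hc : ∀ i, ‖c i‖ ≤ 1) (hcc : ∀ i j, i ≠ j → ‖c i - c j‖ = 1) (M : ℝ)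
    (h : ∀ j : Fin d, ‖∑ i, v i * c i ^ (j : ℕ)‖ < M) (i : Fin d) : ‖v i‖ < M := by
  classical
  let P : Polynomial L := ∏ k ∈ Finset.univ.erase i, (Polynomial.X - Polynomial.C (c k))
  have hdeg : P.natDegree < d := by
    have h1 : P.natDegree = (Finset.univ.erase i).card := by
      simp only [P]
      rw [Polynomial.natDegree_prod_of_monic]
      · simp
      · intro k _
        exact Polynomial.monic_X_sub_C _
    rw [h1, Finset.card_erase_of_mem (Finset.mem_univ _), Finset.card_univ, Fintype.card_fin]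
    have := i.pos
    omega
  have hev : ∀ x : L, P.eval x = ∑ j : Fin d, P.coeff j * x ^ (j : ℕ) := by
    intro x
    rw [Polynomial.eval_eq_sum_range' hdeg, Finset.sum_range]
  have hev0 : ∀ k, k ≠ i → P.eval (c k) = 0 := by
    intro k hk
    simp only [P]
    rw [Polynomial.eval_prod]
    refine Finset.prod_eq_zero (Finset.mem_erase.2 ⟨hk, Finset.mem_univ k⟩) ?_
    simp
  have hev1 : ‖P.eval (c i)‖ = 1 := by
    simp only [P]
    rw [Polynomial.eval_prod, norm_prod]
    refine Finset.prod_eq_one fun k hk => ?_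
    rw [Polynomial.eval_sub, Polynomial.eval_X, Polynomial.eval_C]
    exact hcc i k (Finset.ne_of_mem_erase hk).symm
  have hsum : v i * P.eval (c i) = ∑ j : Fin d, P.coeff j * ∑ k, v k * c k ^ (j : ℕ) := by
    have h1 : v i * P.eval (c i) = ∑ k, v k * P.eval (c k) := by
      rw [Finset.sum_eq_single i]
      · intro k _ hk
        rw [hev0 k hk, mul_zero]
      · intro hi
        exact absurd (Finset.mem_univ i) hi
    rw [h1]
    simp_rw [hev, Finset.mul_sum]
    rw [Finset.sum_comm]
    refine Finset.sum_congr rfl fun j _ => Finset.sum_congr rfl fun k _ => ?_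
    ring
  have hne : (Finset.univ : Finset (Fin d)).Nonempty := ⟨i, Finset.mem_univ i⟩
  obtain ⟨j, _, hj⟩ := IsUltrametricDist.exists_norm_finsetSum_le_of_nonempty hne
    (fun j : Fin d => P.coeff j * ∑ k, v k * c k ^ (j : ℕ))
  have h2 : ‖v i‖ = ‖v i * P.eval (c i)‖ := by
    rw [norm_mul, hev1, mul_one]
  rw [h2, hsum]
  refine lt_of_le_of_lt hj ?_
  rw [norm_mul]
  refine lt_of_le_of_lt ?_ (h j)
  exact mul_le_of_le_one_left (norm_nonneg _) (V1_coeff c hc _ j)

end KL60
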