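import Pool.Agent.LibKL60.B
import Pool.Agent.LibKL60.V1

/-!
# MP_3c6ab9 (Kurihara), local block, row V2: value group of an unramified extension

PLAN
`F := ℚ_[q]⟮a⟯` (`a` is integral) is finite over `ℚ_[q]`, degree `d`, separable; the embeddings `σ
: F →ₐ[ℚ_[q]] PadicAlgCl q` form a finite type of cardinality `d` (`AlgHom.card` /
`Field.finSepDegree`...; only that it is finite AND that every element of it is the restriction of
an automorphism `τ` of `PadicAlgCl q` is needed: `AlgEquiv`: lift `σ` with `IsAlgClosed.lift`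
along `F → PadicAlgCl q`, an algebraic extension, and it is bijective:
`Algebra.IsAlgebraic.algHom_bijective` / `AlgHom.liftNormal`, `AlgEquiv.ofBijective`). Number the
embeddings `σ_i`, `i : Fin d'` (`Fintype.equivFin`), put `c_i = σ_i(a)`, `v_i = σ_i(x)`. Then
`‖v_i‖ = ‖x‖` (`norm_aut`), `‖c_i‖ ≤ 1`, and for `i /= j`: `c_i /= c_j` (an embedding is
determined by the image of the generator: `IntermediateField.algHom_ext_of_eq_adjoin` /
`IntermediateField.adjoin.powerBasis`, `PowerBasis.algHom_ext`), and with `σ_i = τ_i|F`: `τ_j⁻¹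
τ_i a /= a`, so `‖c_i - c_j‖ = ‖τ_j⁻¹ τ_i a - a‖ = 1` by `h`. For every `j` `∑ i, v_i c_i^j =
algebraMap (Algebra.trace ℚ_[q] F (x a^j))` (`trace_eq_sum_embeddings`), which is `0` or of norm
`q^k` (`norm_base`). If all of these had norm `< ‖x‖`, `vander` (V1, `M = ‖x‖`) would give `‖x‖ =
‖v_i‖ < ‖x‖` (there is at least one embedding: the inclusion). So for some `j` the trace has norm
`≥ ‖x‖`; it is also `≤ ‖x‖` (ultrametric sum of terms of norm `≤ ‖x‖`), hence equal to `‖x‖ > 0`,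
and `norm_base` gives `k`.
-/

set_option linter.unusedVariables false

namespace KL60

private theorem norm_emb {q : ℕ} [Fact q.Prime] (F : IntermediateField ℚ_[q] (PadicAlgCl q))
    (σ : F →ₐ[ℚ_[q]] PadicAlgCl q) (y : F) : ‖σ y‖ = ‖(y : PadicAlgCl q)‖ := by
  rw [← PadicAlgCl.spectralNorm_eq, ← PadicAlgCl.spectralNorm_eq]
  unfold spectralNorm
  rw [minpoly.algHom_eq σ σ.injective y]
  have h2 := minpoly.algHom_eq F.val F.val.injective y
  have h3 : F.val y = (y : PadicAlgCl q) := rfl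
  rw [h3] at h2
  rw [h2]

private theorem exists_aut {q : ℕ} [Fact q.Prime] (F : IntermediateField ℚ_[q] (PadicAlgCl q))
    (σ : F →ₐ[ℚ_[q]] PadicAlgCl q) (y : F) :
    ∃ τ : PadicAlgCl q ≃ₐ[ℚ_[q]] PadicAlgCl q, τ (y : PadicAlgCl q) = σ y := by
  have h1 : IsConjRoot ℚ_[q] (y : PadicAlgCl q) (σ y) := by
    show minpoly ℚ_[q] (y : PadicAlgCl q) = minpoly ℚ_[q] (σ y)
    rw [minpoly.algHom_eq σ σ.injective y]
    exact minpoly.algHom_eq F.val F.val.injective y
  obtain ⟨τ, hτ⟩ := isConjRoot_iff_exists_algEquiv.1 h1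
  exact ⟨τ.symm, by rw [← hτ]; exact τ.symm_apply_apply _⟩

theorem val_unr {q : ℕ} [Fact q.Prime] (a : PadicAlgCl q) (ha : ‖a‖ ≤ 1)
    (h : ∀ τ : PadicAlgCl q ≃ₐ[ℚ_[q]] PadicAlgCl q, τ a ≠ a → ‖τ a - a‖ = 1)
    (x : PadicAlgCl q) (hx : x ∈ IntermediateField.adjoin ℚ_[q] {a}) (h0 : x ≠ 0) :
    ∃ k : ℤ, ‖x‖ = (q : ℝ) ^ k := by
  classical
  obtain ⟨F, hF⟩ : ∃ F, F = IntermediateField.adjoin ℚ_[q] ({a} : Set (PadicAlgCl q)) := ⟨_, rfl⟩
  have hint : IsIntegral ℚ_[q] a := (Algebra.IsAlgebraic.isAlgebraic a).isIntegral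
  have hfd : FiniteDimensional ℚ_[q] F := by
    rw [hF]; exact IntermediateField.adjoin.finiteDimensional hint
  have hsep : Algebra.IsSeparable ℚ_[q] F := inferInstance
  have haF : a ∈ F := by rw [hF]; exact IntermediateField.mem_adjoin_simple_self _ a
  have hxF : x ∈ F := by rw [hF]; exact hx
  obtain ⟨a', ha'⟩ : ∃ a' : F, (a' : PadicAlgCl q) = a := ⟨⟨a, haF⟩, rfl⟩
  obtain ⟨x', hx'⟩ : ∃ x' : F, (x' : PadicAlgCl q) = x := ⟨⟨x, hxF⟩, rfl⟩
  have hext : ∀ σ₁ σ₂ : F →ₐ[ℚ_[q]] PadicAlgCl q, σ₁ a' = σ₂ a' → σ₁ = σ₂ := by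
    subst hF
    intro σ₁ σ₂ h12
    apply IntermediateField.adjoin_algHom_ext
    intro y hy
    have hy' : y = a := hy
    subst hy'
    have e : a' = ⟨y, IntermediateField.subset_adjoin _ _ hy⟩ := Subtype.ext ha'
    rw [← e]
    exact h12
  obtain ⟨e⟩ : Nonempty ((F →ₐ[ℚ_[q]] PadicAlgCl q) ≃ Fin (Fintype.card (F →ₐ[ℚ_[q]] PadicAlgCl q))) :=
    ⟨Fintype.equivFin _⟩
  by_contra hcon
  push Not at hcon
  have hxpos : 0 < ‖x‖ := norm_pos_iff.2 h0
  have key := vander (fun i => e.symm i a') (fun i => e.symm i x') (fun i => by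
      rw [norm_emb, ha']; exact ha) (fun i j hij => by
      have hne : e.symm i a' ≠ e.symm j a' := by
        intro hh
        exact hij (e.symm.injective (hext _ _ hh))
      obtain ⟨τ₁, h1⟩ := exists_aut F (e.symm i) a'
      obtain ⟨τ₂, h2⟩ := exists_aut F (e.symm j) a'
      show ‖e.symm i a' - e.symm j a'‖ = 1
      rw [← h1, ← h2, ha'] at hne ⊢
      have h3 : τ₁ a - τ₂ a = τ₂ ((τ₁.trans τ₂.symm) a - a) := by
        rw [map_sub]
        simp
      rw [h3, norm_aut]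
      apply h
      intro h4
      apply hne
      have h5 := congrArg τ₂ h4
      simpa using h5) ‖x‖ (fun j => by
      have h1 : ∑ i, e.symm i x' * e.symm i a' ^ (j : ℕ)
          = algebraMap ℚ_[q] (PadicAlgCl q) (Algebra.trace ℚ_[q] F (x' * a' ^ (j : ℕ))) := by
        rw [trace_eq_sum_embeddings (PadicAlgCl q)]
        rw [← Equiv.sum_comp e.symm]
        apply Finset.sum_congr rfl
        intro i _
        rw [map_mul, map_pow]
      have h2 : ‖∑ i, e.symm i x' * e.symm i a' ^ (j : ℕ)‖ ≤ ‖x‖ := by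
        apply IsUltrametricDist.norm_sum_le_of_forall_le_of_nonneg (norm_nonneg _)
        intro i _
        rw [norm_mul, norm_pow, norm_emb, norm_emb, ha', hx']
        exact mul_le_of_le_one_right (norm_nonneg _) (pow_le_one₀ (norm_nonneg _) ha)
      show ‖∑ i, e.symm i x' * e.symm i a' ^ (j : ℕ)‖ < ‖x‖
      rcases eq_or_ne (Algebra.trace ℚ_[q] F (x' * a' ^ (j : ℕ))) 0 with h3 | h3
      · rw [h1, h3, map_zero, norm_zero]; exact hxpos
      · obtain ⟨k, hk⟩ := norm_base _ h3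
        refine lt_of_le_of_ne h2 ?_
        intro h4
        rw [h1, hk] at h4
        exact hcon k h4.symm)
  have h6 := key (e F.val)
  simp only [Equiv.symm_apply_apply] at h6
  rw [norm_emb, hx'] at h6
  exact lt_irrefl _ h6

end KL60
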