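import Pool.Agent.LibKL60.B
import Pool.Agent.LibKL60.R2
import Pool.Agent.LibKL60.V2

/-!
# MP_3c6ab9 (Kurihara), local block, row V3: value group of the maximal unramified extension

PLAN
There is a finite subset `s` of the set with `x ∈ adjoin ℚ_[q] s`
(`IntermediateField.exists_finset_of_mem_adjoin`). Let `N` be the product of the chosen orders of
the elements of `s` (or: induction over the finset for the statement `∃ N > 0, ¬ q ∣ N ∧ ∀ η ∈ s,
η^N = 1`; `q` prime, so `q` does not divide a product). Take a primitive `N`-th root of unity `ζ`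
in `PadicAlgCl q` (algebraically closed, characteristic `0`): each `η ∈ s` is a power of `ζ`
(`IsPrimitiveRoot.eq_pow_of_pow_eq_one`), so `x ∈ adjoin {ζ}`. Apply `val_unr` (V2) with `a = ζ`:
`‖ζ‖ = 1`; if `τ ζ /= ζ` then `‖τ ζ - ζ‖ = ‖τ ζ / ζ - 1‖`, it is `≤ 1`, and if it were `< 1` then
`root_one` (R2; `n = N`, `‖N‖ = 1` by `norm_nat_eq`) would give `τ ζ / ζ = 1`.
-/

set_option linter.unusedVariables false

namespace KL60

private theorem V3_order {q : ℕ} [Fact q.Prime] (T : Finset (PadicAlgCl q))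
    (hT : ∀ η ∈ T, ∃ n : ℕ, 0 < n ∧ ¬ q ∣ n ∧ η ^ n = 1) :
    ∃ N : ℕ, 0 < N ∧ ¬ q ∣ N ∧ ∀ η ∈ T, η ^ N = 1 := by
  classical
  induction T using Finset.induction_on with
  | empty =>
    refine ⟨1, one_pos, ?_, by simp⟩
    intro h
    exact (Fact.out : q.Prime).one_lt.ne' (Nat.dvd_one.1 h)
  | insert a T ha ih =>
    obtain ⟨N, hN, hqN, hη⟩ := ih fun η h => hT η (Finset.mem_insert_of_mem h)
    obtain ⟨n, hn, hqn, han⟩ := hT a (Finset.mem_insert_self a T)
    refine ⟨n * N, Nat.mul_pos hn hN, ?_, ?_⟩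
    · intro h
      rcases (Fact.out : q.Prime).dvd_mul.1 h with h | h
      · exact hqn h
      · exact hqN h
    · intro η h
      rcases Finset.mem_insert.1 h with rfl | h
      · rw [pow_mul, han, one_pow]
      · rw [mul_comm, pow_mul, hη η h, one_pow]

theorem val_U {q : ℕ} [Fact q.Prime] (x : PadicAlgCl q)
    (hx : x ∈ IntermediateField.adjoin ℚ_[q]
      {η : PadicAlgCl q | ∃ n : ℕ, 0 < n ∧ ¬ q ∣ n ∧ η ^ n = 1}) (h0 : x ≠ 0) :
    ∃ k : ℤ, ‖x‖ = (q : ℝ) ^ k := by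
  obtain ⟨T, hT, hxT⟩ := IntermediateField.exists_finset_of_mem_adjoin hx
  obtain ⟨N, hN, hqN, hη⟩ := V3_order T fun η h => hT h
  have : NeZero N := ⟨hN.ne'⟩
  have : NeZero ((N : ℕ) : PadicAlgCl q) := ⟨by
    intro h
    have h' := norm_nat_eq (q := q) N hqN
    rw [h, norm_zero] at h'
    exact absurd h' (by norm_num)⟩
  obtain ⟨ζ, hζ⟩ := HasEnoughRootsOfUnity.exists_primitiveRoot (PadicAlgCl q) N
  have hζn : ‖ζ‖ = 1 := by
    have h := congrArg norm hζ.pow_eq_one
    rw [norm_pow, norm_one] at h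
    exact (pow_eq_one_iff_of_nonneg (norm_nonneg _) hN.ne').1 h
  have hx' : x ∈ IntermediateField.adjoin ℚ_[q] {ζ} := by
    refine IntermediateField.adjoin_le_iff.2 ?_ hxT
    intro η h
    obtain ⟨i, -, hi⟩ := hζ.eq_pow_of_pow_eq_one (hη η h)
    rw [← hi]
    exact pow_mem (IntermediateField.mem_adjoin_simple_self ℚ_[q] ζ) i
  refine val_unr ζ hζn.le ?_ x hx' h0
  intro τ hτ
  have hζ0 : ζ ≠ 0 := by
    intro h
    rw [h, norm_zero] at hζn
    exact absurd hζn (by norm_num)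
  have hτn : ‖τ ζ‖ = 1 := by rw [norm_aut, hζn]
  have hle : ‖τ ζ - ζ‖ ≤ 1 := norm_sub_le hτn.le hζn.le
  refine le_antisymm hle ?_
  by_contra hcon
  push Not at hcon
  apply hτ
  have hroot : τ ζ / ζ = 1 := by
    refine root_one N (norm_nat_eq N hqN) (τ ζ / ζ) ?_ ?_
    · rw [div_pow, ← map_pow, hζ.pow_eq_one, map_one, div_one]
    · rw [show τ ζ / ζ - 1 = (τ ζ - ζ) / ζ by rw [sub_div, div_self hζ0], norm_div, hζn, div_one]
      exact hcon
  rwa [div_eq_one_iff_eq hζ0] at hroot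

end KL60
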