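import Pool.Agent.LibKL60.B
import Pool.Agent.LibKL60.R8
import Pool.Agent.LibKL60.V3

/-!
# MP_3c6ab9 (Kurihara), local block, row V4: an inertia element which moves a cube root of q

PLAN
Let `U` be the intermediate field of `val_U` (V3). `‖c‖^3 = ‖q‖ = q⁻¹` (`norm_q`), so `c ∉ U`:
otherwise `‖c‖ = q^k`, `q^(3k) = q^(-1)`, `3 k = -1` (`zpow_right_injective₀` or `zpow_inj`),
impossible. `gal_move` gives `τ` fixing `U` pointwise with `τ c /= c`, and `fix_iner` (R8) the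
first statement (`IntermediateField.subset_adjoin`).
-/

set_option linter.unusedVariables false

namespace KL60

theorem tame_move {q : ℕ} [Fact q.Prime] (c : PadicAlgCl q) (hc : c ^ 3 = (q : PadicAlgCl q)) :
    ∃ τ : PadicAlgCl q ≃ₐ[ℚ_[q]] PadicAlgCl q,
      (∀ x : PadicAlgCl q, ‖x‖ ≤ 1 → ‖τ x - x‖ < 1) ∧ τ c ≠ c := by
  have hq : (q : ℕ).Prime := Fact.out
  have hq1 : (1 : ℝ) < q := by exact_mod_cast hq.one_lt
  have hq0 : (0 : ℝ) < q := by linarith
  have hc0 : c ≠ 0 := by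
    intro h
    rw [h, zero_pow (by norm_num)] at hc
    exact hq.ne_zero (by exact_mod_cast hc.symm)
  set S : Set (PadicAlgCl q) := {η : PadicAlgCl q | ∃ n : ℕ, 0 < n ∧ ¬ q ∣ n ∧ η ^ n = 1} with hS
  have hcU : c ∉ IntermediateField.adjoin ℚ_[q] S := by
    intro hmem
    obtain ⟨k, hk⟩ := val_U c hmem hc0
    have h1 : ‖c‖ ^ 3 = (q : ℝ)⁻¹ := by
      rw [← norm_pow, hc, norm_q]
    rw [hk, ← zpow_natCast, ← zpow_mul, ← zpow_neg_one] at h1
    have h2 := zpow_right_injective₀ hq0 hq1.ne' h1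
    push_cast at h2
    omega
  obtain ⟨τ, hτ, hτc⟩ := gal_move (IntermediateField.adjoin ℚ_[q] S) c hcU
  refine ⟨τ, fun x hx => ?_, hτc⟩
  refine fix_iner τ (fun n η hn hqn hη => ?_) x hx
  exact hτ η (IntermediateField.subset_adjoin ℚ_[q] S ⟨n, hn, hqn, hη⟩)

end KL60
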