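import Pool.Agent.LibKL60.N1

/-!
# MP_3c6ab9, block F: the Kummer-Selmer group of a number field is finite (ideal part)
-/

open NumberField IsDedekindDomain

namespace KL60

/-- an element all of whose valuations are divisible by `3`: after multiplication by a cube it is
integral and its ideal is a cube -/
theorem exists_ideal_cube {M : Type*} [Field M] [NumberField M] (z : M) (hz : z ≠ 0)
    (h : ∀ v : HeightOneSpectrum (𝓞 M), ∃ y : M, y ≠ 0 ∧ v.valuation M z = v.valuation M y ^ 3) :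
    ∃ (b r : 𝓞 M) (I : Ideal (𝓞 M)), b ≠ 0 ∧ r ≠ 0 ∧ I ≠ ⊥ ∧
      z * ((b : 𝓞 M) : M) ^ 3 = ((r : 𝓞 M) : M) ∧ Ideal.span {r} = I ^ 3 := by
  classical
  obtain ⟨a, b, hb, rfl⟩ := IsFractionRing.div_surjective (A := 𝓞 M) z
  have hb0 : b ≠ 0 := nonZeroDivisors.ne_zero hb
  have hbM : algebraMap (𝓞 M) M b ≠ 0 := by
    rwa [Ne, FaithfulSMul.algebraMap_eq_zero_iff]
  have ha0 : a ≠ 0 := by
    rintro rfl
    apply hz
    rw [map_zero, zero_div]
  have hr0 : a * b ^ 2 ≠ 0 := mul_ne_zero ha0 (pow_ne_zero 2 hb0)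
  have hcount : ∀ v : HeightOneSpectrum (𝓞 M),
      3 ∣ (Associates.mk v.asIdeal).count
        (Associates.mk (Ideal.span {a * b ^ 2} : Ideal (𝓞 M))).factors := by
    intro v
    obtain ⟨y, hy, hvy⟩ := h v
    have h1 : v.valuation M (algebraMap (𝓞 M) M (a * b ^ 2)) =
        (v.valuation M (y * algebraMap (𝓞 M) M b)) ^ 3 := by
      rw [map_mul (v.valuation M), mul_pow, ← hvy, ← map_pow, ← map_mul]
      congr 1
      rw [map_mul, map_pow]
      field_simp
    have hyb : y * algebraMap (𝓞 M) M b ≠ 0 := mul_ne_zero hy hbM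
    rw [HeightOneSpectrum.valuation_of_algebraMap,
      HeightOneSpectrum.intValuation_if_neg v hr0] at h1
    have h2 : v.valuation M (y * algebraMap (𝓞 M) M b) ≠ 0 := by
      rwa [Ne, Valuation.zero_iff]
    rw [← WithZero.exp_log h2, ← WithZero.exp_nsmul, WithZero.exp_inj] at h1
    have h3 : (3 : ℤ) ∣ ((Associates.mk v.asIdeal).count
        (Associates.mk (Ideal.span {a * b ^ 2} : Ideal (𝓞 M))).factors : ℤ) :=
      ⟨-WithZero.log (v.valuation M (y * algebraMap (𝓞 M) M b)), by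
        rw [nsmul_eq_mul] at h1
        push_cast at h1 ⊢
        linarith⟩
    exact_mod_cast h3
  have hne : Associates.mk (Ideal.span {a * b ^ 2} : Ideal (𝓞 M)) ≠ 0 := by
    rw [Ne, Associates.mk_eq_zero, Ideal.zero_eq_bot, Ideal.span_singleton_eq_bot]
    exact hr0
  obtain ⟨c, hc⟩ := Associates.is_pow_of_dvd_count hne (k := 3) (fun p hp => by
    obtain ⟨P, rfl⟩ := Associates.mk_surjective p
    have hPi : Irreducible P := Associates.irreducible_mk.1 hp
    have hPp : Prime P := hPi.prime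
    exact hcount ⟨P, Ideal.isPrime_of_prime hPp, hPp.ne_zero⟩)
  obtain ⟨J, rfl⟩ := Associates.mk_surjective c
  rw [← Associates.mk_pow, Associates.mk_eq_mk_iff_associated, associated_iff_eq] at hc
  refine ⟨b, a * b ^ 2, J, hb0, hr0, ?_, ?_, hc⟩
  · rintro rfl
    have : (Ideal.span {a * b ^ 2} : Ideal (𝓞 M)) = ⊥ := by
      rw [hc, ← Ideal.zero_eq_bot]
      exact zero_pow (by norm_num)
    rw [Ideal.span_singleton_eq_bot] at this
    exact hr0 this
  · change algebraMap (𝓞 M) M a / algebraMap (𝓞 M) M b * algebraMap (𝓞 M) M b ^ 3 =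
      algebraMap (𝓞 M) M (a * b ^ 2)
    rw [map_mul, map_pow]
    field_simp

/-- the elements all of whose valuations are divisible by `3`, modulo cubes -/
theorem val_cov (K : Type*) [Field K] [NumberField K] :
    CovFin {z : K | z ≠ 0 ∧ ∀ v : HeightOneSpectrum (𝓞 K),
      ∃ y : K, y ≠ 0 ∧ v.valuation K z = v.valuation K y ^ 3} := by
  classical
  let T : Set K := {z : K | z ≠ 0 ∧ ∀ v : HeightOneSpectrum (𝓞 K),
      ∃ y : K, y ≠ 0 ∧ v.valuation K z = v.valuation K y ^ 3}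
  have hT : ∀ z : K, z ∈ T → ∃ (b r : 𝓞 K) (I : Ideal (𝓞 K)), b ≠ 0 ∧ r ≠ 0 ∧ I ≠ ⊥ ∧
      z * ((b : 𝓞 K) : K) ^ 3 = ((r : 𝓞 K) : K) ∧ Ideal.span {r} = I ^ 3 :=
    fun z hz ↦ exists_ideal_cube z hz.1 hz.2
  choose! b r I hb hr hI hzr hsp using hT
  let f : K → ClassGroup (𝓞 K) := fun z ↦
    if h : I z ≠ ⊥ then ClassGroup.mk0 ⟨I z, mem_nonZeroDivisors_iff_ne_zero.mpr h⟩ else 1
  refine cov_of_map T _ (fun z hz ↦ hz.1) f ?_ (units_cov' K)
  intro z hz z' hz' hff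
  have e1 : f z = ClassGroup.mk0 ⟨I z, mem_nonZeroDivisors_iff_ne_zero.mpr (hI z hz)⟩ :=
    dif_pos (hI z hz)
  have e2 : f z' = ClassGroup.mk0 ⟨I z', mem_nonZeroDivisors_iff_ne_zero.mpr (hI z' hz')⟩ :=
    dif_pos (hI z' hz')
  rw [e1, e2, ClassGroup.mk0_eq_mk0_iff] at hff
  obtain ⟨x, y, hx, hy, hxy⟩ := hff
  change Ideal.span {x} * I z = Ideal.span {y} * I z' at hxy
  have h3 : Ideal.span {x ^ 3 * r z} = Ideal.span {y ^ 3 * r z'} := by
    have := congrArg (fun J ↦ J ^ 3) hxy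
    simp only [mul_pow] at this
    rw [← hsp z hz, ← hsp z' hz', Ideal.span_singleton_pow, Ideal.span_singleton_pow,
      Ideal.span_singleton_mul_span_singleton, Ideal.span_singleton_mul_span_singleton] at this
    exact this
  rw [Ideal.span_singleton_eq_span_singleton] at h3
  obtain ⟨ε, hε⟩ := h3.symm
  have h4 : ((y : 𝓞 K) : K) ^ 3 * ((r z' : 𝓞 K) : K) * ((ε : 𝓞 K) : K) =
      ((x : 𝓞 K) : K) ^ 3 * ((r z : 𝓞 K) : K) := by
    have := congrArg (algebraMap (𝓞 K) K) hε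
    simpa only [map_mul, map_pow] using this
  rw [← hzr z hz, ← hzr z' hz'] at h4
  have hxK : ((x : 𝓞 K) : K) ≠ 0 := by
    change algebraMap (𝓞 K) K x ≠ 0
    rwa [Ne, FaithfulSMul.algebraMap_eq_zero_iff]
  have hbK : ((b z : 𝓞 K) : K) ≠ 0 := by
    change algebraMap (𝓞 K) K (b z) ≠ 0
    rw [Ne, FaithfulSMul.algebraMap_eq_zero_iff]
    exact hb z hz
  refine ⟨ε, ((y : 𝓞 K) : K) * ((b z' : 𝓞 K) : K) / (((x : 𝓞 K) : K) * ((b z : 𝓞 K) : K)), ?_⟩
  have hz0 : z' ≠ 0 := hz'.1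
  field_simp
  linear_combination -h4

end KL60
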