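import Mathlib

/-!
# MP_3c6ab9, local part: basic facts
-/

set_option linter.unusedVariables false

namespace KL60

theorem norm_aut {q : ℕ} [Fact q.Prime] (τ : PadicAlgCl q ≃ₐ[ℚ_[q]] PadicAlgCl q) (x : PadicAlgCl q) :
    ‖τ x‖ = ‖x‖ := by
  rw [← PadicAlgCl.spectralNorm_eq, ← PadicAlgCl.spectralNorm_eq]
  exact (spectralNorm_eq_of_equiv τ x).symm

/-- an element outside an intermediate field is moved by some automorphism over it -/
theorem gal_move {q : ℕ} [Fact q.Prime] (K : IntermediateField ℚ_[q] (PadicAlgCl q))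
    (x : PadicAlgCl q) (hx : x ∉ K) :
    ∃ τ : PadicAlgCl q ≃ₐ[ℚ_[q]] PadicAlgCl q, (∀ y ∈ K, τ y = y) ∧ τ x ≠ x := by
  by_contra hcon
  push Not at hcon
  apply hx
  have : IsGalois ℚ_[q] (PadicAlgCl q) := inferInstance
  rw [← InfiniteGalois.fixedField_fixingSubgroup K]
  rw [IntermediateField.mem_fixedField_iff]
  intro τ hτ
  apply hcon τ
  intro y hy
  exact (IntermediateField.mem_fixingSubgroup_iff K τ).mp hτ y hy

/-- an element outside `ℚ_q` is moved by some automorphism -/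
theorem gal_move' {q : ℕ} [Fact q.Prime] (x : PadicAlgCl q)
    (hx : ∀ a : ℚ_[q], x ≠ algebraMap ℚ_[q] (PadicAlgCl q) a) :
    ∃ τ : PadicAlgCl q ≃ₐ[ℚ_[q]] PadicAlgCl q, τ x ≠ x := by
  obtain ⟨τ, _, h⟩ := gal_move (⊥ : IntermediateField ℚ_[q] (PadicAlgCl q)) x (by
    intro h
    rw [IntermediateField.mem_bot] at h
    obtain ⟨a, ha⟩ := h
    exact hx a ha.symm)
  exact ⟨τ, h⟩

/-- norms of sums -/
theorem norm_add_lt {L : Type*} [NormedField L] [IsUltrametricDist L] {x y : L} {c : ℝ}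
    (hx : ‖x‖ < c) (hy : ‖y‖ < c) : ‖x + y‖ < c :=
  (IsUltrametricDist.norm_add_le_max x y).trans_lt (max_lt hx hy)

theorem norm_add_le {L : Type*} [NormedField L] [IsUltrametricDist L] {x y : L} {c : ℝ}
    (hx : ‖x‖ ≤ c) (hy : ‖y‖ ≤ c) : ‖x + y‖ ≤ c :=
  (IsUltrametricDist.norm_add_le_max x y).trans (max_le hx hy)

theorem norm_sub_lt {L : Type*} [NormedField L] [IsUltrametricDist L] {x y : L} {c : ℝ}
    (hx : ‖x‖ < c) (hy : ‖y‖ < c) : ‖x - y‖ < c := by
  rw [sub_eq_add_neg]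
  exact norm_add_lt hx (by rwa [norm_neg])

theorem norm_sub_le {L : Type*} [NormedField L] [IsUltrametricDist L] {x y : L} {c : ℝ}
    (hx : ‖x‖ ≤ c) (hy : ‖y‖ ≤ c) : ‖x - y‖ ≤ c := by
  rw [sub_eq_add_neg]
  exact norm_add_le hx (by rwa [norm_neg])

/-- the larger term determines the norm of a sum -/
theorem norm_add_eq_left {L : Type*} [NormedField L] [IsUltrametricDist L] {x y : L}
    (h : ‖y‖ < ‖x‖) : ‖x + y‖ = ‖x‖ := by
  rw [IsUltrametricDist.norm_add_eq_max_of_norm_ne_norm h.ne', max_eq_left h.le]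

theorem norm_add_eq_right {L : Type*} [NormedField L] [IsUltrametricDist L] {x y : L}
    (h : ‖x‖ < ‖y‖) : ‖x + y‖ = ‖y‖ := by
  rw [IsUltrametricDist.norm_add_eq_max_of_norm_ne_norm h.ne, max_eq_right h.le]

/-- two elements at distance less than the norm of one have the same norm -/
theorem norm_eq_of_sub_lt {L : Type*} [NormedField L] [IsUltrametricDist L] {x y : L}
    (h : ‖x - y‖ < ‖y‖) : ‖x‖ = ‖y‖ := by
  have := norm_add_eq_right (x := x - y) (y := y) h
  rwa [sub_add_cancel] at this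

/-- integers have norm at most one -/
theorem norm_int_le {L : Type*} [NormedField L] [IsUltrametricDist L] (n : ℤ) : ‖(n : L)‖ ≤ 1 :=
  IsUltrametricDist.norm_intCast_le_one L n

theorem norm_nat_le {L : Type*} [NormedField L] [IsUltrametricDist L] (n : ℕ) : ‖(n : L)‖ ≤ 1 :=
  IsUltrametricDist.norm_natCast_le_one L n

/-- the norm of a natural number prime to `q` is `1` -/
theorem norm_nat_eq {q : ℕ} [Fact q.Prime] (n : ℕ) (hn : ¬ q ∣ n) : ‖(n : PadicAlgCl q)‖ = 1 := by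
  have h : ((n : ℚ_[q]) : PadicAlgCl q) = (n : PadicAlgCl q) := by
    exact map_natCast (algebraMap ℚ_[q] (PadicAlgCl q)) n
  rw [← h, PadicAlgCl.norm_extends]
  exact Padic.norm_natCast_eq_one_iff.mpr ((Nat.coprime_comm.mp ((Fact.out : q.Prime).coprime_iff_not_dvd.mpr hn)).symm)

/-- the norm of `q` -/
theorem norm_q {q : ℕ} [Fact q.Prime] : ‖(q : PadicAlgCl q)‖ = (q : ℝ)⁻¹ := by
  have h : ((q : ℚ_[q]) : PadicAlgCl q) = (q : PadicAlgCl q) := by
    exact map_natCast (algebraMap ℚ_[q] (PadicAlgCl q)) q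
  rw [← h, PadicAlgCl.norm_extends, Padic.norm_p]

/-- the norm of an element of `ℚ_q` is a power of `q` -/
theorem norm_base {q : ℕ} [Fact q.Prime] (a : ℚ_[q]) (ha : a ≠ 0) :
    ∃ k : ℤ, ‖algebraMap ℚ_[q] (PadicAlgCl q) a‖ = (q : ℝ) ^ k := by
  refine ⟨-a.valuation, ?_⟩
  have h : ‖algebraMap ℚ_[q] (PadicAlgCl q) a‖ = ‖a‖ := PadicAlgCl.norm_extends q a
  rw [h]
  exact Padic.norm_eq_zpow_neg_valuation ha

end KL60
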