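import Pool.Agent.LibKuQ.B1
import Pool.Agent.LibKuQ.B2
import Pool.Agent.LibKuQ.B5

/-!
# MP_3c6ab9, block F: the Kummer-Selmer group of a number field is finite
-/

open NumberField IsDedekindDomain

namespace KL60

/-- covered by finitely many classes modulo cubes -/
def CovFin {K : Type*} [Field K] (T : Set K) : Prop :=
  ∃ Z : Finset K, ∀ z ∈ T, ∃ y ∈ Z, ∃ β : K, z = y * β ^ 3

theorem cov_of_map {K : Type*} [Field K] {F : Type*} [Finite F] (T T' : Set K)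
    (h0 : ∀ z ∈ T, z ≠ 0) (f : K → F)
    (hf : ∀ z ∈ T, ∀ z' ∈ T, f z = f z' → z / z' ∈ T') (h' : CovFin T') : CovFin T := by
  classical
  have : Fintype F := Fintype.ofFinite F
  obtain ⟨Z', hZ'⟩ := h'
  let r : F → K := fun c ↦ if h : ∃ z ∈ T, f z = c then h.choose else 0
  refine ⟨(Finset.univ ×ˢ Z').image (fun p : F × K ↦ r p.1 * p.2), ?_⟩
  intro z hz
  have hex : ∃ w ∈ T, f w = f z := ⟨z, hz, rfl⟩
  have hr : r (f z) = hex.choose := dif_pos hex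
  obtain ⟨hw, hfw⟩ := hex.choose_spec
  rw [← hr] at hw hfw
  obtain ⟨y, hy, β, hβ⟩ := hZ' _ (hf z hz (r (f z)) hw hfw.symm)
  refine ⟨r (f z) * y, ?_, β, ?_⟩
  · rw [Finset.mem_image]
    exact ⟨(f z, y), Finset.mem_product.mpr ⟨Finset.mem_univ _, hy⟩, rfl⟩
  · have hne := h0 _ hw
    rw [div_eq_iff hne] at hβ
    linear_combination hβ

/-- units modulo cubes -/
theorem units_cov (K : Type*) [Field K] [NumberField K] :
    CovFin {z : K | ∃ ε : (𝓞 K)ˣ, z = ((ε : 𝓞 K) : K)} := by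
  classical
  let n := NumberField.Units.rank K
  let F : NumberField.Units.torsion K × (Fin n → Fin 3) → K := fun p ↦
    ((((p.1 : (𝓞 K)ˣ) * ∏ i, (NumberField.Units.fundSystem K i) ^ ((p.2 i : ℕ)) : (𝓞 K)ˣ) : 𝓞 K) : K)
  have : Fintype (NumberField.Units.torsion K × (Fin n → Fin 3)) := Fintype.ofFinite _
  refine ⟨Finset.univ.image F, ?_⟩
  rintro z ⟨ε, rfl⟩
  obtain ⟨⟨ζ, e⟩, hζe, -⟩ := NumberField.Units.exist_unique_eq_mul_prod K ε
  let c : Fin n → Fin 3 := fun i ↦ ⟨(e i % 3).toNat, by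
    have h1 := Int.emod_nonneg (e i) (by norm_num : (3 : ℤ) ≠ 0)
    have h2 := Int.emod_lt_of_pos (e i) (by norm_num : (0 : ℤ) < 3)
    omega⟩
  let η : (𝓞 K)ˣ := ∏ i, (NumberField.Units.fundSystem K i) ^ (e i / 3)
  refine ⟨F (ζ, c), Finset.mem_image.mpr ⟨_, Finset.mem_univ _, rfl⟩, ((η : 𝓞 K) : K), ?_⟩
  have key : ε = ((ζ : (𝓞 K)ˣ) * ∏ i, (NumberField.Units.fundSystem K i) ^ ((c i : ℕ))) * η ^ 3 := by
    rw [hζe, mul_assoc]
    congr 1
    change _ = _ * (∏ i, (NumberField.Units.fundSystem K i) ^ (e i / 3)) ^ 3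
    rw [← Finset.prod_pow, ← Finset.prod_mul_distrib]
    refine Finset.prod_congr rfl ?_
    intro i _
    have h1 : ((c i : ℕ) : ℤ) = e i % 3 := by
      change (((e i % 3).toNat : ℕ) : ℤ) = e i % 3
      exact Int.toNat_of_nonneg (Int.emod_nonneg (e i) (by norm_num))
    rw [← zpow_natCast, h1, ← zpow_natCast (_ ^ (e i / 3)) 3, ← zpow_mul, ← zpow_add]
    congr 1
    have := Int.emod_add_mul_ediv (e i) 3
    push_cast
    omega
  conv_lhs => rw [key]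
  simp only [Units.val_mul, Units.val_pow_eq_pow_val, map_mul, map_pow, F]

/-- units times cubes -/
theorem units_cov' (K : Type*) [Field K] [NumberField K] :
    CovFin {z : K | ∃ (ε : (𝓞 K)ˣ) (β : K), z = ((ε : 𝓞 K) : K) * β ^ 3} := by
  obtain ⟨Z, hZ⟩ := units_cov K
  refine ⟨Z, ?_⟩
  rintro z ⟨ε, β, rfl⟩
  obtain ⟨y, hy, γ, hγ⟩ := hZ _ ⟨ε, rfl⟩
  exact ⟨y, hy, γ * β, by rw [hγ]; ring⟩

end KL60
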