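import Pool.Agent.LibKL60.B

/-!
# MP_3c6ab9, local part: points of `y² = x³ - x² - 3x - 1` over a field with absolute value
-/

set_option linter.unusedVariables false

namespace KL60

/-- `W` is the curve `y² = x³ - x² - 3x - 1` -/
structure IsE {L : Type*} [Field L] (W : WeierstrassCurve.Affine L) : Prop where
  a1 : W.a₁ = 0
  a2 : W.a₂ = -1
  a3 : W.a₃ = 0
  a4 : W.a₄ = -3
  a6 : W.a₆ = -1

/-- integral points (the complement is the kernel of reduction `E₁`) -/
def IntP {L : Type*} [NormedField L] {W : WeierstrassCurve.Affine L} : W.Point → Prop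
  | .zero => False
  | .some x _ _ => ‖x‖ ≤ 1

theorem intP_zero {L : Type*} [NormedField L] {W : WeierstrassCurve.Affine L} :
    ¬ IntP (0 : W.Point) := by
  intro h
  exact h

theorem intP_some {L : Type*} [NormedField L] {W : WeierstrassCurve.Affine L} {x y : L}
    (h : W.Nonsingular x y) : IntP (.some x y h : W.Point) ↔ ‖x‖ ≤ 1 := Iff.rfl

/-- the equation of a point -/
theorem eqE {L : Type*} [Field L] {W : WeierstrassCurve.Affine L} (hW : IsE W) {x y : L}
    (h : W.Nonsingular x y) : y ^ 2 = x ^ 3 - x ^ 2 - 3 * x - 1 := by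
  have h1 := h.1
  rw [WeierstrassCurve.Affine.equation_iff, hW.a1, hW.a2, hW.a3, hW.a4, hW.a6] at h1
  linear_combination h1

theorem negYE {L : Type*} [Field L] {W : WeierstrassCurve.Affine L} (hW : IsE W) (x y : L) :
    W.negY x y = -y := by
  rw [WeierstrassCurve.Affine.negY, hW.a1, hW.a3]; ring

theorem addXE {L : Type*} [Field L] {W : WeierstrassCurve.Affine L} (hW : IsE W) (x x' ℓ : L) :
    W.addX x x' ℓ = ℓ ^ 2 + 1 - x - x' := by
  rw [WeierstrassCurve.Affine.addX, hW.a1, hW.a2]; ring

/-- the slope of the line through two points with different `x` -/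
theorem slopeE {L : Type*} [Field L] [DecidableEq L] {W : WeierstrassCurve.Affine L} (hW : IsE W)
    {x x' y y' : L} (hx : x ≠ x') : W.slope x x' y y' = (y - y') / (x - x') :=
  WeierstrassCurve.Affine.slope_of_X_ne hx

/-- the slope of the tangent line -/
theorem slopeE2 {L : Type*} [Field L] [DecidableEq L] {W : WeierstrassCurve.Affine L} (hW : IsE W)
    {x y : L} (h2 : (2 : L) ≠ 0) (hy : y ≠ 0) :
    W.slope x x y y = (3 * x ^ 2 - 2 * x - 3) / (2 * y) := by
  have hy' : y ≠ W.negY x y := by
    rw [negYE hW]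
    intro h
    apply hy
    have : (2 : L) * y = 0 := by linear_combination h
    rcases mul_eq_zero.mp this with h' | h'
    · exact absurd h' h2
    · exact h'
  rw [WeierstrassCurve.Affine.slope_of_Y_ne rfl hy', negYE hW, hW.a1, hW.a2, hW.a4]
  congr 1 <;> ring

end KL60
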