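import Pool.Agent.LibKL60.B

/-!
# MP_3c6ab9 (Kurihara), local block, row T11: 193 splits completely

PLAN
`F = X^4 + 4 X^2 + 6` over `ℤ_[193]`. Hensel (`hensels_lemma`) at `93` and at `15`: `193` divides
`F(93)`, `F(15)`, and `F'(93)`, `F'(15)` are units (`norm_num`/`decide`;
`PadicInt.norm_int_lt_one_iff_dvd`). This gives `a, b : ℤ_[193]` with `F(a) = F(b) = 0`, `a = 93`,
`b = 15` modulo `193`. Then `a^2 /= b^2` (`93^2 - 15^2` is not divisible by `193`), so `a^2 + b^2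
+ 4 = 0` and every root `x` of `X^4 + 4X^2 + 6` satisfies `x^2 = a^2` or `x^2 = b^2`, i.e. `x ∈
{a, -a, b, -b}`, in `ℚ_193`: fixed by `τ`.
-/

set_option linter.unusedVariables false

namespace KL60

private theorem hens [Fact (Nat.Prime 193)] (c : ℤ) (h : (193 : ℤ) ∣ c ^ 4 + 4 * c ^ 2 + 6)
    (h' : ¬ (193 : ℤ) ∣ 4 * c ^ 3 + 8 * c) :
    ∃ a : ℤ_[193], a ^ 4 + 4 * a ^ 2 + 6 = 0 ∧ ‖a - (c : ℤ_[193])‖ < 1 := by
  obtain ⟨F, hF⟩ : ∃ F : Polynomial ℤ_[193],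
    F = Polynomial.X ^ 4 + 4 * Polynomial.X ^ 2 + 6 := ⟨_, rfl⟩
  have hev : ∀ t : ℤ_[193], F.eval t = t ^ 4 + 4 * t ^ 2 + 6 := by
    intro t
    rw [hF]
    simp
  have hder : F.derivative.eval (c : ℤ_[193]) = 4 * (c : ℤ_[193]) ^ 3 + 8 * (c : ℤ_[193]) := by
    rw [hF]
    have e4 : (4 : Polynomial ℤ_[193]) = Polynomial.C 4 := rfl
    have e6 : (6 : Polynomial ℤ_[193]) = Polynomial.C 6 := rfl
    rw [e4, e6]
    simp
    ring
  have hd1 : ‖F.derivative.eval (c : ℤ_[193])‖ = 1 := by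
    rw [hder]
    have e : (4 * (c : ℤ_[193]) ^ 3 + 8 * (c : ℤ_[193])) = ((4 * c ^ 3 + 8 * c : ℤ) : ℤ_[193]) := by
      push_cast
      ring
    rw [e]
    refine le_antisymm (PadicInt.norm_le_one _) (not_lt.1 fun hlt => h' ?_)
    exact_mod_cast PadicInt.norm_int_lt_one_iff_dvd _ |>.1 hlt
  have hn : ‖F.eval (c : ℤ_[193])‖ < ‖F.derivative.eval (c : ℤ_[193])‖ ^ 2 := by
    rw [hd1, one_pow, hev]
    have e : ((c : ℤ_[193]) ^ 4 + 4 * (c : ℤ_[193]) ^ 2 + 6) =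
        ((c ^ 4 + 4 * c ^ 2 + 6 : ℤ) : ℤ_[193]) := by
      push_cast
      ring
    rw [e]
    exact (PadicInt.norm_int_lt_one_iff_dvd _).2 (by exact_mod_cast h)
  obtain ⟨z, hz, hza, -, -⟩ := hensels_lemma (F := F) (a := (c : ℤ_[193])) (by simpa using hn)
  refine ⟨z, ?_, ?_⟩
  · rw [← hev]
    simpa using hz
  · have : ‖z - (c : ℤ_[193])‖ < ‖F.derivative.eval (c : ℤ_[193])‖ := by simpa using hza
    rwa [hd1] at this

theorem split193 [Fact (Nat.Prime 193)] (τ : PadicAlgCl 193 ≃ₐ[ℚ_[193]] PadicAlgCl 193)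
    (x : PadicAlgCl 193) (hx : x ^ 4 + 4 * x ^ 2 + 6 = 0) : τ x = x := by
  obtain ⟨a, ha, ha'⟩ := hens 93 (by norm_num) (by norm_num)
  obtain ⟨b, hb, hb'⟩ := hens 15 (by norm_num) (by norm_num)
  have hab : a ^ 2 ≠ b ^ 2 := by
    intro h
    have h1 : ‖(((93 : ℤ) ^ 2 - 15 ^ 2 : ℤ) : ℤ_[193])‖ < 1 := by
      have e : (((93 : ℤ) ^ 2 - 15 ^ 2 : ℤ) : ℤ_[193]) =
          -((a - ((93 : ℤ) : ℤ_[193])) * (a + ((93 : ℤ) : ℤ_[193]))) +
            (b - ((15 : ℤ) : ℤ_[193])) * (b + ((15 : ℤ) : ℤ_[193])) := by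
        push_cast
        linear_combination h
      rw [e]
      refine (IsUltrametricDist.norm_add_le_max _ _).trans_lt (max_lt ?_ ?_)
      · rw [norm_neg, norm_mul]
        exact (mul_le_of_le_one_right (norm_nonneg _) (PadicInt.norm_le_one _)).trans_lt ha'
      · rw [norm_mul]
        exact (mul_le_of_le_one_right (norm_nonneg _) (PadicInt.norm_le_one _)).trans_lt hb'
    have h2 := (PadicInt.norm_int_lt_one_iff_dvd _).1 h1
    norm_num at h2
  have hs : a ^ 2 + b ^ 2 + 4 = 0 := by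
    have h1 : (a ^ 2 - b ^ 2) * (a ^ 2 + b ^ 2 + 4) = 0 := by linear_combination ha - hb
    rcases mul_eq_zero.1 h1 with h | h
    · exact absurd (sub_eq_zero.1 h) hab
    · exact h
  have hp : a ^ 2 * b ^ 2 = 6 := by linear_combination a ^ 2 * hs - ha
  -- in the algebraic closure
  obtain ⟨A, hA⟩ : ∃ A : PadicAlgCl 193, A = algebraMap ℚ_[193] (PadicAlgCl 193) (a : ℚ_[193]) :=
    ⟨_, rfl⟩
  obtain ⟨B, hB⟩ : ∃ B : PadicAlgCl 193, B = algebraMap ℚ_[193] (PadicAlgCl 193) (b : ℚ_[193]) :=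
    ⟨_, rfl⟩
  have hs' : A ^ 2 + B ^ 2 + 4 = 0 := by
    have h1 : (a : ℚ_[193]) ^ 2 + (b : ℚ_[193]) ^ 2 + 4 = 0 := by
      have h0 := congrArg (PadicInt.Coe.ringHom (p := 193)) hs
      rw [map_add, map_add, map_pow, map_pow, map_ofNat, map_zero] at h0
      exact h0
    have h2 := congrArg (algebraMap ℚ_[193] (PadicAlgCl 193)) h1
    rw [map_add, map_add, map_pow, map_pow, map_ofNat, map_zero, ← hA, ← hB] at h2
    exact h2
  have hp' : A ^ 2 * B ^ 2 = 6 := by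
    have h1 : (a : ℚ_[193]) ^ 2 * (b : ℚ_[193]) ^ 2 = 6 := by
      have h0 := congrArg (PadicInt.Coe.ringHom (p := 193)) hp
      rw [map_mul, map_pow, map_pow, map_ofNat] at h0
      exact h0
    have h2 := congrArg (algebraMap ℚ_[193] (PadicAlgCl 193)) h1
    rw [map_mul, map_pow, map_pow, map_ofNat, ← hA, ← hB] at h2
    exact h2
  have hτA : τ A = A := by rw [hA]; exact τ.commutes _
  have hτB : τ B = B := by rw [hB]; exact τ.commutes _
  have h4 : (x - A) * ((x + A) * ((x - B) * (x + B))) = 0 := by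
    linear_combination hx - x ^ 2 * hs' + hp'
  rcases mul_eq_zero.1 h4 with h | h
  · rw [sub_eq_zero.1 h, hτA]
  rcases mul_eq_zero.1 h with h | h
  · rw [eq_neg_of_add_eq_zero_left h, map_neg, hτA]
  rcases mul_eq_zero.1 h with h | h
  · rw [sub_eq_zero.1 h, hτB]
  · rw [eq_neg_of_add_eq_zero_left h, map_neg, hτB]

end KL60
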